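import Pool.Agent.H98.BQ.Stmt

/-!
# The main step of the proof
-/

set_option autoImplicit false
set_option linter.unusedSectionVars false

namespace Pool.Agent.H98.BQ

open Finset
open scoped Pointwise
open Pool.Agent.H98.BG

namespace COREL

section

variable {G : Type} [AddCommGroup G] [Fintype G] [DecidableEq G]

theorem card_AA (A : Finset G) (E : ℕ → Finset G) (lam : ℝ) (n : ℕ) (hA : A.Nonempty)
    (hd : Dom A E lam n) : ((A + A).card : ℝ) ≤ Real.exp lam * A.card := by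
  obtain ⟨a0, ha0⟩ := hA
  have h1 : (A + A).card ≤ (E 1).card := by
    apply Finset.card_le_card_of_injOn (fun x => x - a0)
    · intro x hx
      obtain ⟨a, ha, a', ha', rfl⟩ := Finset.mem_add.1 (Finset.mem_coe.1 hx)
      exact hd.add 0 a (hd.base ha) a' ha' a0 ha0
    · intro x _ y _ h
      simpa using h
  have h2 := hd.card 1 (by omega)
  have h3 : ((A + A).card : ℝ) ≤ (E 1).card := by exact_mod_cast h1
  exact h3.trans h2

theorem two_pts (σ : G → ℝ) (B : Finset G) (u v : G) (hσ : IsP σ) (hu : 3 / 4 ≤ pr σ B u)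
    (hv : 3 / 4 ≤ pr σ B v) : u - v ∈ B - B := by
  by_contra hcon
  have h1 : ∀ s, (if u + s ∈ B then σ s else 0) + (if v + s ∈ B then σ s else 0) ≤ σ s := by
    intro s
    have h0 := hσ.1 s
    split_ifs with h2 h3 h3
    · exfalso
      apply hcon
      have := Finset.sub_mem_sub h2 h3
      rwa [add_sub_add_right_eq_sub] at this
    · linarith
    · linarith
    · linarith
  have h2 : pr σ B u + pr σ B v ≤ 1 := by
    unfold pr
    rw [← Finset.sum_add_distrib, ← hσ.2]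
    exact Finset.sum_le_sum fun s _ => h1 s
  linarith

/-- the support is in `A` or in `-A` -/
def Sup (A : Finset G) (τ : G → ℝ) : Prop :=
  (∀ t, τ t ≠ 0 → t ∈ A) ∨ (∀ t, τ t ≠ 0 → t ∈ -A)

theorem sup_refl (A : Finset G) (τ τ' : G → ℝ) (h : Sup A τ)
    (h' : ∀ t, τ' t ≠ 0 → τ (-t) ≠ 0) : Sup A τ' := by
  rcases h with h | h
  · right
    intro t ht
    exact Finset.mem_neg'.2 (h _ (h' t ht))
  · left
    intro t ht
    have := Finset.mem_neg'.1 (h _ (h' t ht))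
    rwa [neg_neg] at this

theorem sup_H (bas : BAS) (A : Finset G) (τ : G → ℝ) (hτ : IsP τ) (h : Sup A τ) :
    H τ ≤ Real.log A.card := by
  obtain ⟨b1, -⟩ := bas G
  rcases h with h | h
  · exact b1 τ A hτ h
  · have := b1 τ (-A) hτ h
    rwa [Finset.card_neg] at this

theorem cv_ge (bas : BAS) (ρ τ : G → ℝ) (hρ : IsP ρ) (hτ : IsP τ) : H ρ ≤ H (cv ρ τ) := by
  obtain ⟨-, b2, -, -, -, -, b7⟩ := bas G
  have h1 := (b7 ρ τ hτ).1
  have h2 := (b7 ρ (fun t => τ (-t)) h1).2.2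
  have h3 : (fun t => (fun t => τ (-t)) (-t)) = τ := by
    funext t
    simp
  rw [h3] at h2
  rw [h2]
  exact b2 ρ _ hρ h1

theorem step (stq : STQ) (A : Finset G) (E : ℕ → Finset G) (lam : ℝ) (n i : ℕ)
    (hd : Dom A E lam n) (m : ℕ) (q w e L : ℝ) (σ τ ρ : G → ℝ) (hσ : IsP σ) (hτ : IsP τ)
    (hρ : IsP ρ) (hm : 0 < m) (hq : 0 ≤ q) (hqm : q ≤ m) (hw : 0 ≤ w) (hsup : Sup A τ)
    (hρs : ∀ x, ρ x ≠ 0 → x ∈ E (i + 1))
    (hloss : -(q * ∑ x, ρ x * pr σ (A + A) x) +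
      Real.log (∑ x ∈ E (i + 2), Real.exp (q * pr σ (A + A) x)) ≤ H ρ + e) :
    ∃ τ' : G → ℝ, IsP τ' ∧ Sup A τ' ∧
      (L - H τ') + w * (H (cv ρ τ') - H ρ) ≤
        (L - H τ) + m * (H (cv σ τ) - H σ) + w * (e + q ^ 2 / m) := by
  have key : ∃ R : Finset G, (∀ x t, ρ x ≠ 0 → τ t ≠ 0 → x - t ∈ R) ∧
      (∀ y t, y ∈ R → τ t ≠ 0 → y + t ∈ E (i + 2)) := by
    rcases hsup with h | h
    · refine ⟨E (i + 1) - A, ?_, ?_⟩
      · intro x t hx ht
        exact Finset.sub_mem_sub (hρs x hx) (h t ht)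
      · intro y t hy ht
        obtain ⟨x, hx, a, ha, rfl⟩ := Finset.mem_sub.1 hy
        have := hd.add (i + 1) x hx t (h t ht) a ha
        have e1 : x - a + t = x + t - a := by abel
        rw [e1]
        exact this
    · refine ⟨E (i + 1) - -A, ?_, ?_⟩
      · intro x t hx ht
        exact Finset.sub_mem_sub (hρs x hx) (h t ht)
      · intro y t hy ht
        obtain ⟨x, hx, a, ha, rfl⟩ := Finset.mem_sub.1 hy
        have := hd.add (i + 1) x hx (-a) (Finset.mem_neg'.1 ha) (-t) (Finset.mem_neg'.1 (h t ht))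
        have e1 : x - a + t = x + -a - -t := by abel
        rw [e1]
        exact this
  obtain ⟨R, hR1, hR2⟩ := key
  obtain ⟨τ', h1, h2, h3⟩ := stq G m q w (H (cv σ τ) - H σ) e L σ τ ρ (A + A) R (E (i + 2))
    hσ hτ hρ hm hq hqm hw le_rfl hR1 hR2 hloss
  exact ⟨τ', h1, sup_refl A τ τ' hsup h2, h3⟩

theorem base (bas : BAS) (A : Finset G) (E : ℕ → Finset G) (lam : ℝ) (n : ℕ)
    (hA : A.Nonempty) (hd : Dom A E lam n) :
    H (cv (GO0L.un A) (GO0L.un A)) - H (GO0L.un A) ≤ lam := by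
  obtain ⟨b1, -, b3, -⟩ := bas G
  have h0 : (0 : ℝ) < A.card := by exact_mod_cast hA.card_pos
  have h1 := b1 (cv (GO0L.un A) (GO0L.un A)) (A + A)
    (b3 _ _ (GO0L.un_isP A hA) (GO0L.un_isP A hA)).2
    (fun t ht => GO0L.cv_supp _ _ A A (GO0L.un_supp A) (GO0L.un_supp A) t ht)
  have h2 : (0 : ℝ) < (A + A).card := by exact_mod_cast (hA.add hA).card_pos
  have h3 := Real.log_le_log h2 (card_AA A E lam n hA hd)
  rw [Real.log_mul (Real.exp_pos _).ne' h0.ne', Real.log_exp] at h3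
  rw [GO0L.un_H A hA]
  linarith

theorem claim (stq : STQ) (sq : SEQ) (los : LOS) (bas : BAS) (A : Finset G)
    (E : ℕ → Finset G) (lam : ℝ) (q n : ℕ) (hA : A.Nonempty) (hlam : 0 ≤ lam)
    (hq : 8 * lam + 24 ≤ q) (hd : Dom A E lam n) (hp : 2 ^ (n - 1) ≤ 128 * q) :
    ∀ j ≤ n - 1, ∃ τ : G → ℝ, IsP τ ∧ Sup A τ ∧
      (Real.log A.card - H τ) + ((2 : ℝ) ^ j * q) *
        (H (cv (sg A E q j) τ) - H (sg A E q j)) ≤ q * lam + 3 * j * (q : ℝ) ^ 2 := by
  have hq0 : (0 : ℝ) ≤ q := Nat.cast_nonneg q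
  have hq24 : (24 : ℝ) ≤ q := by linarith
  intro j
  induction j with
  | zero =>
    intro _
    refine ⟨GO0L.un A, GO0L.un_isP A hA, Or.inl (GO0L.un_supp A), ?_⟩
    have h1 := base bas A E lam n hA hd
    have e1 : sg A E q 0 = GO0L.un A := rfl
    rw [e1, GO0L.un_H A hA] at *
    simp only [pow_zero, one_mul, Nat.cast_zero, mul_zero, zero_mul, add_zero, sub_self, zero_add]
    exact mul_le_mul_of_nonneg_left h1 hq0
  | succ j ih =>
    intro hj
    obtain ⟨τ, hτ, hsup, hb⟩ := ih (by omega)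
    have hjn : j < n := by omega
    have hσ := (sq G A E lam q n hA hq0 hd j).1
    have hρ := (sq G A E lam q n hA hq0 hd (j + 1)).1
    have hρs := (sq G A E lam q n hA hq0 hd (j + 1)).2.1
    have hl := (los G A E lam q n hA hlam hq hd j hjn).1
    have hqN : 0 < q := by
      have : (0 : ℝ) < q := by linarith
      exact_mod_cast this
    have hm : 0 < 2 ^ j * q := by positivity
    have hqm : (q : ℝ) ≤ ((2 ^ j * q : ℕ) : ℝ) := by
      have : q ≤ 2 ^ j * q := Nat.le_mul_of_pos_left q (by positivity)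
      exact_mod_cast this
    obtain ⟨τ', h1, h2, h3⟩ := step stq A E lam n j hd (2 ^ j * q) q ((2 : ℝ) ^ (j + 1) * q)
      (1 / 1024) (Real.log A.card) (sg A E q j) τ (sg A E q (j + 1)) hσ hτ hρ hm hq0 hqm
      (by positivity) hsup hρs hl
    refine ⟨τ', h1, h2, h3.trans ?_⟩
    have e1 : ((2 ^ j * q : ℕ) : ℝ) = (2 : ℝ) ^ j * q := by push_cast; ring
    rw [e1]
    have hqpos : (0 : ℝ) < q := by linarith
    have h2j : (0 : ℝ) < (2 : ℝ) ^ j := by positivity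
    have e2 : (2 : ℝ) ^ (j + 1) * q * (1 / 1024 + (q : ℝ) ^ 2 / ((2 : ℝ) ^ j * q)) =
        (2 : ℝ) ^ (j + 1) * q / 1024 + 2 * (q : ℝ) ^ 2 := by
      field_simp
      ring
    rw [e2]
    have h4 : (2 : ℝ) ^ (j + 1) ≤ 128 * q := by
      have h5 : 2 ^ (j + 1) ≤ 128 * q := (Nat.pow_le_pow_right (by norm_num) hj).trans hp
      exact_mod_cast h5
    have h5 : (2 : ℝ) ^ (j + 1) * q ≤ 128 * (q : ℝ) ^ 2 := by
      calc (2 : ℝ) ^ (j + 1) * q ≤ (128 * q) * q := mul_le_mul_of_nonneg_right h4 hq0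
        _ = 128 * (q : ℝ) ^ 2 := by ring
    push_cast
    nlinarith

end

end COREL

open COREL

theorem core (stq : STQ) (sq : SEQ) (los : LOS) (bas : BAS) : CORE := by
  intro G _ _ _ A E lam q n hA hlam hq hd hn hp1 hp2
  have hq0 : (0 : ℝ) ≤ q := Nat.cast_nonneg q
  have hq24 : (24 : ℝ) ≤ q := by linarith
  have hqpos : (0 : ℝ) < q := by linarith
  have hqN : 0 < q := by exact_mod_cast hqpos
  obtain ⟨τ, hτ, hsup, hb⟩ := claim stq sq los bas A E lam q n hA hlam hq hd hp2 (n - 1) le_rfl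
  have hσ := (sq G A E lam q n hA hq0 hd (n - 1)).1
  obtain ⟨ρ, hρ, hρs, hl⟩ := (los G A E lam q n hA hlam hq hd (n - 1) (by omega)).2
  have hm : 0 < 2 ^ (n - 1) * q := by positivity
  have hqm : (q : ℝ) ≤ ((2 ^ (n - 1) * q : ℕ) : ℝ) := by
    have : q ≤ 2 ^ (n - 1) * q := Nat.le_mul_of_pos_left q (by positivity)
    exact_mod_cast this
  have hnR : (1 : ℝ) ≤ n := by exact_mod_cast hn
  have hD : (0 : ℝ) < 4 * n * (q : ℝ) ^ 2 := by positivity
  obtain ⟨τ', h1, h2, h3⟩ := step stq A E lam n (n - 1) hd (2 ^ (n - 1) * q) q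
    (32 * (4 * n * (q : ℝ) ^ 2)) (1 / 128) (Real.log A.card) (sg A E q (n - 1)) τ ρ hσ hτ hρ hm
    hq0 hqm (by positivity) hsup (fun x hx => (hρs x hx).1) hl
  have e1 : ((2 ^ (n - 1) * q : ℕ) : ℝ) = (2 : ℝ) ^ (n - 1) * q := by push_cast; ring
  rw [e1] at h3
  have h4 : (q : ℝ) ^ 2 / ((2 : ℝ) ^ (n - 1) * q) ≤ 1 / 64 := by
    rw [div_le_div_iff₀ (by positivity) (by norm_num)]
    have h5 : (64 : ℝ) * q ≤ (2 : ℝ) ^ (n - 1) := by exact_mod_cast hp1
    nlinarith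
  have h5 : (q : ℝ) * lam + 3 * ((n - 1 : ℕ) : ℝ) * (q : ℝ) ^ 2 ≤ 4 * n * (q : ℝ) ^ 2 := by
    rw [Nat.cast_sub hn, Nat.cast_one]
    have h6 : (q : ℝ) * lam ≤ (q : ℝ) * q := mul_le_mul_of_nonneg_left (by linarith) hq0
    have h7 : 0 ≤ (q : ℝ) ^ 2 := by positivity
    nlinarith
  have h6 : (Real.log A.card - H τ') + 32 * (4 * n * (q : ℝ) ^ 2) * (H (cv ρ τ') - H ρ) ≤
      7 / 4 * (4 * n * (q : ℝ) ^ 2) := by
    have h7 : 32 * (4 * n * (q : ℝ) ^ 2) * (1 / 128 + (q : ℝ) ^ 2 / ((2 : ℝ) ^ (n - 1) * q)) ≤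
        32 * (4 * n * (q : ℝ) ^ 2) * (1 / 128 + 1 / 64) :=
      mul_le_mul_of_nonneg_left (by linarith) (by positivity)
    linarith
  have h7 := sup_H bas A τ' h1 h2
  have h8 := cv_ge bas ρ τ' hρ h1
  have h9 : 0 ≤ 32 * (4 * n * (q : ℝ) ^ 2) * (H (cv ρ τ') - H ρ) :=
    mul_nonneg (by positivity) (by linarith)
  refine ⟨ρ, τ', hρ, h1, ?_, h2, ?_, ?_⟩
  · intro u v hu hv
    exact two_pts (sg A E q (n - 1)) (A + A) u v hσ (hρs u hu).2 (hρs v hv).2
  · have h10 : 0 ≤ (n : ℝ) * (q : ℝ) ^ 2 := by positivity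
    linarith
  · by_contra hneg
    push Not at hneg
    have h10 : 32 * (4 * n * (q : ℝ) ^ 2) * (1 / 16) <
        32 * (4 * n * (q : ℝ) ^ 2) * (H (cv ρ τ') - H ρ) :=
      mul_lt_mul_of_pos_left hneg (by positivity)
    linarith

end Pool.Agent.H98.BQ
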