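import Pool.Agent.H98.BQ.Stmt

/-!
# The result for finite groups, dense sets
-/

set_option autoImplicit false

namespace Pool.Agent.H98.BQ

open Finset
open scoped Pointwise
open Pool.Agent.H98.BG

namespace FGDL

theorem dom {G : Type} [AddCommGroup G] [Fintype G] [DecidableEq G] (A : Finset G)
    (hA : A.Nonempty) (n : ℕ) :
    Dom A (fun _ => Finset.univ) (Real.log ((Fintype.card G : ℝ) / A.card)) n where
  base := Finset.subset_univ A
  refl := fun _ _ _ _ _ => Finset.mem_univ _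
  add := fun _ _ _ _ _ _ _ => Finset.mem_univ _
  card := by
    intro i _
    have hcA : (0 : ℝ) < A.card := by exact_mod_cast hA.card_pos
    have hcG : (0 : ℝ) < Fintype.card G := by
      have : 0 < Fintype.card G := Fintype.card_pos_iff.2 ⟨hA.choose⟩
      exact_mod_cast this
    rw [Real.exp_log (by positivity), div_mul_cancel₀ _ hcA.ne', Finset.card_univ]

/-- the choice of the parameter -/
theorem param (L : ℝ) (hL : 0 ≤ L) : ∃ k : ℕ,
    8 * L + 24 ≤ (2 : ℝ) ^ k ∧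
    10 * ((k + 7 : ℕ) : ℝ) * ((2 : ℝ) ^ k) ^ 2 + L ≤
      2293761 * ((1 + L) ^ 2 * (1 + Real.log (1 + L))) := by
  obtain ⟨x, hx⟩ : ∃ x, x = 1 + L := ⟨_, rfl⟩
  obtain ⟨l, hl⟩ : ∃ l, l = 1 + Real.log x := ⟨_, rfl⟩
  have hx1 : 1 ≤ x := by linarith
  have hl0 : 0 ≤ Real.log x := Real.log_nonneg hx1
  have hl1 : 1 ≤ l := by linarith
  have hx0 : 0 < x := by linarith
  have hl0' : 0 < l := by linarith
  obtain ⟨m, hm1, hm2⟩ := exists_nat_pow_near (x := 64 * x) (y := (2 : ℝ))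
    (by linarith) (by norm_num)
  have h2 : (0.69 : ℝ) < Real.log 2 := by
    have := Real.log_two_gt_d9
    linarith
  have hm3 : (m : ℝ) ≤ 6 + 2 * Real.log x := by
    have h3 := Real.log_le_log (by positivity) hm1
    rw [Real.log_pow, Real.log_mul (by norm_num) hx0.ne',
      show (64 : ℝ) = 2 ^ 6 by norm_num, Real.log_pow] at h3
    push_cast at h3
    by_contra h5
    push Not at h5
    have h6 : ((m : ℝ) - 6) * Real.log 2 ≤ Real.log x := by linarith
    have h7 : 2 * Real.log x * Real.log 2 < ((m : ℝ) - 6) * Real.log 2 :=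
      mul_lt_mul_of_pos_right (by linarith) (by linarith)
    nlinarith
  refine ⟨m + 1, by linarith, ?_⟩
  have h3 : (((m + 1 + 7 : ℕ)) : ℝ) ≤ 14 * l := by
    push_cast
    linarith
  have h4 : (2 : ℝ) ^ (m + 1) ≤ 128 * x := by
    rw [pow_succ]
    linarith
  have h5 : L ≤ x ^ 2 * l := by nlinarith [mul_nonneg hL hL, mul_le_mul (show (1:ℝ) ≤ x ^ 2 by nlinarith) hl1 (by norm_num) (by positivity), mul_le_mul_of_nonneg_left hl1 (show (0:ℝ) ≤ x ^ 2 by positivity)]
  rw [← hx, ← hl]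
  calc 10 * ((m + 1 + 7 : ℕ) : ℝ) * ((2 : ℝ) ^ (m + 1)) ^ 2 + L
      ≤ 10 * (14 * l) * (128 * x) ^ 2 + x ^ 2 * l := by gcongr
    _ = 2293761 * (x ^ 2 * l) := by ring

end FGDL

theorem fgd (core : CORE) (fin1 : FIN1) (fin2 : FIN2) (ch2 : CH2) (ch3 : CH3) : FGD := by
  refine ⟨4 * 2293761, by positivity, ?_⟩
  intro G _ _ _ A hA
  have hcA : (0 : ℝ) < A.card := by exact_mod_cast hA.card_pos
  have hcG : (0 : ℝ) < Fintype.card G := by
    have : 0 < Fintype.card G := Fintype.card_pos_iff.2 ⟨hA.choose⟩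
    exact_mod_cast this
  have hL : 0 ≤ Real.log ((Fintype.card G : ℝ) / A.card) := by
    apply Real.log_nonneg
    rw [le_div_iff₀ hcA, one_mul]
    exact_mod_cast Finset.card_le_univ A
  obtain ⟨k, hk1, hk2⟩ := FGDL.param _ hL
  obtain ⟨σ, τ, hσ, hτ, hdf, -, hD, hc⟩ := core G A (fun _ => Finset.univ)
    (Real.log ((Fintype.card G : ℝ) / A.card)) (2 ^ k) (k + 7) hA hL
    (by push_cast at hk1 ⊢; exact hk1) (FGDL.dom A hA (k + 7)) (by omega)
    (by rw [show k + 7 - 1 = k + 6 by omega, pow_add]; omega)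
    (by rw [show k + 7 - 1 = k + 6 by omega, pow_add]; omega)
  classical
  obtain ⟨Γ, hΓS, hdiss, hspan⟩ := ch3 G
    (Finset.univ.filter fun χ : AddChar G ℂ => 1 / 2 ≤ ‖∑ t, (τ t : ℂ) * χ t‖ ^ 2)
  have hcard := ch2 G τ Γ (Real.log (Fintype.card G) - H τ) hτ le_rfl hdiss
    (fun l hl => (Finset.mem_filter.1 (hΓS hl)).2)
  refine ⟨Γ, ?_, ?_⟩
  · have e : Real.log ((Fintype.card G : ℝ) / A.card) =
        Real.log (Fintype.card G) - Real.log A.card := Real.log_div hcG.ne' hcA.ne'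
    have hD' : Real.log A.card - H τ ≤ 10 * ((k + 7 : ℕ) : ℝ) * ((2 : ℝ) ^ k) ^ 2 := by
      push_cast at hD ⊢
      exact hD
    have : (Γ.card : ℝ) ≤ 4 * (2293761 *
        ((1 + Real.log ((Fintype.card G : ℝ) / A.card)) ^ 2 *
          (1 + Real.log (1 + Real.log ((Fintype.card G : ℝ) / A.card))))) := by
      linarith
    refine this.trans (le_of_eq ?_)
    ring
  · intro y hy
    have hy' : ∀ χ : AddChar G ℂ, 1 / 2 ≤ ‖∑ t, (τ t : ℂ) * χ t‖ ^ 2 → ‖χ y - 1‖ ≤ 1 / 4 := by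
      intro χ hχ
      by_cases h0 : Γ.card = 0
      · have := hspan χ (Finset.mem_filter.2 ⟨Finset.mem_univ _, hχ⟩) y 0
          (fun l hl => by
            rw [Finset.card_eq_zero] at h0; rw [h0] at hl; exact absurd hl (by simp))
        rw [h0] at this
        simp only [Nat.cast_zero, mul_zero] at this
        linarith
      · have hpos : (0 : ℝ) < Γ.card := by exact_mod_cast Nat.pos_of_ne_zero h0
        have := hspan χ (Finset.mem_filter.2 ⟨Finset.mem_univ _, hχ⟩) y (1 / (4 * (Γ.card : ℝ)))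
          (fun l hl => by
            rw [le_div_iff₀ (by positivity)]; exact hy l hl)
        refine this.trans (le_of_eq ?_)
        field_simp
    obtain ⟨u, v, hu, hv, rfl⟩ := fin2 G σ τ hσ hτ (fin1 G σ τ (1 / 16) hσ hτ hc) y hy'
    rw [two_nsmul]
    exact hdf u v hu hv

end Pool.Agent.H98.BQ
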