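import Pool.Agent.H98.BQ.Stmt

/-!
# The result for finite groups, sets of small doubling
-/

set_option autoImplicit false

namespace Pool.Agent.H98.BQ

open Finset
open scoped Pointwise
open Pool.Agent.H98.BG

namespace FGKL

/-- the domains -/
def EE {G : Type} [AddCommGroup G] [DecidableEq G] (A : Finset G) (i : ℕ) : Finset G :=
  (i + 1) • A - i • A

theorem dom {G : Type} [AddCommGroup G] [Fintype G] [DecidableEq G] (A : Finset G)
    (hA : A.Nonempty) (K : ℝ) (hK : 1 ≤ K) (h : ((A - A).card : ℝ) ≤ K * A.card) (n : ℕ) :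
    Dom A (EE A) ((2 * n + 3 : ℕ) * Real.log K) n where
  base := by
    unfold EE
    rw [zero_add, one_nsmul, zero_nsmul, sub_zero]
  refl := by
    intro i x hx b hb
    unfold EE at hx ⊢
    obtain ⟨u, hu, v, hv, rfl⟩ := Finset.mem_sub.1 hx
    refine Finset.mem_sub.2 ⟨b + v, ?_, u, hu, by abel⟩
    rw [show i + 1 + 1 = 2 + i by ring, add_nsmul, two_nsmul]
    exact Finset.add_mem_add hb hv
  add := by
    intro i x hx a ha a' ha'
    unfold EE at hx ⊢
    obtain ⟨u, hu, v, hv, rfl⟩ := Finset.mem_sub.1 hx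
    refine Finset.mem_sub.2 ⟨u + a, ?_, v + a', ?_, by abel⟩
    · rw [succ_nsmul]
      exact Finset.add_mem_add hu ha
    · rw [succ_nsmul]
      exact Finset.add_mem_add hv ha'
  card := by
    intro i hi
    rw [Real.exp_nat_mul, Real.exp_log (by linarith)]
    exact GO0L.card_le A hA K hK h (i + 1) i (2 * n + 3) (by omega)

/-- the choice of the parameter -/
theorem param (L : ℝ) (hL : 0 ≤ L) : ∃ k : ℕ,
    8 * (((2 * (k + 7) + 3 : ℕ) : ℝ) * L) + 24 ≤ (2 : ℝ) ^ k ∧
    10 * ((k + 7 : ℕ) : ℝ) * ((2 : ℝ) ^ k) ^ 2 ≤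
      754974720 * ((1 + L) ^ 2 * (1 + Real.log (1 + L)) ^ 3) := by
  obtain ⟨x, hx⟩ : ∃ x, x = 1 + L := ⟨_, rfl⟩
  obtain ⟨l, hl⟩ : ∃ l, l = 1 + Real.log x := ⟨_, rfl⟩
  have hx1 : 1 ≤ x := by linarith
  have hl0 : 0 ≤ Real.log x := Real.log_nonneg hx1
  have hl1 : 1 ≤ l := by linarith
  have hx0 : 0 < x := by linarith
  have hl0' : 0 < l := by linarith
  have hxl : 1 ≤ x * l := one_le_mul_of_one_le_of_one_le hx1 hl1
  obtain ⟨m, hm1, hm2⟩ := exists_nat_pow_near (x := 1024 * (x * l)) (y := (2 : ℝ))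
    (by linarith) (by norm_num)
  have h2 : (0.69 : ℝ) < Real.log 2 := by
    have := Real.log_two_gt_d9
    linarith
  have hm3 : (m : ℝ) ≤ 10 + 3 * Real.log x := by
    have h3 := Real.log_le_log (by positivity) hm1
    rw [Real.log_pow, Real.log_mul (by norm_num) (by positivity),
      Real.log_mul hx0.ne' hl0'.ne', show (1024 : ℝ) = 2 ^ 10 by norm_num, Real.log_pow] at h3
    have h4 := Real.log_le_sub_one_of_pos hl0'
    push_cast at h3
    by_contra h5
    push Not at h5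
    have h6 : ((m : ℝ) - 10) * Real.log 2 ≤ 2 * Real.log x := by linarith
    have h7 : 3 * Real.log x * Real.log 2 < ((m : ℝ) - 10) * Real.log 2 :=
      mul_lt_mul_of_pos_right (by linarith) (by linarith)
    nlinarith
  refine ⟨m + 1, ?_, ?_⟩
  · push_cast
    have h3 : ((m : ℝ) + 1) ≤ 11 * l := by linarith
    have h4 : 8 * ((2 * ((m : ℝ) + 1 + 7) + 3) * L) + 24 ≤ 1024 * (x * l) := by
      have h5 : (2 * ((m : ℝ) + 1 + 7) + 3) ≤ 39 * l := by linarith
      have h6 : (2 * ((m : ℝ) + 1 + 7) + 3) * L ≤ 39 * l * x :=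
        mul_le_mul h5 (by linarith) hL (by positivity)
      nlinarith
    linarith
  · have h3 : (((m + 1 + 7 : ℕ)) : ℝ) ≤ 18 * l := by
      push_cast
      linarith
    have h4 : (2 : ℝ) ^ (m + 1) ≤ 2048 * (x * l) := by
      rw [pow_succ]
      linarith
    rw [← hx, ← hl]
    calc 10 * ((m + 1 + 7 : ℕ) : ℝ) * ((2 : ℝ) ^ (m + 1)) ^ 2
        ≤ 10 * (18 * l) * (2048 * (x * l)) ^ 2 := by gcongr
      _ = 754974720 * (x ^ 2 * l ^ 3) := by ring

end FGKL

theorem fgk (core : CORE) (fin1 : FIN1) (fin2 : FIN2) (ch2 : CH2) (ch3 : CH3) : FGK := by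
  refine ⟨4 * 754974720, by positivity, ?_⟩
  intro G _ _ _ A K hA hK hAA
  have hL : 0 ≤ Real.log K := Real.log_nonneg hK
  obtain ⟨k, hk1, hk2⟩ := FGKL.param (Real.log K) hL
  obtain ⟨σ, τ, hσ, hτ, hdf, -, hD, hc⟩ := core G A (FGKL.EE A)
    (((2 * (k + 7) + 3 : ℕ) : ℝ) * Real.log K) (2 ^ k) (k + 7) hA (by positivity)
    (by push_cast at hk1 ⊢; exact hk1) (FGKL.dom A hA K hK hAA (k + 7)) (by omega)
    (by rw [show k + 7 - 1 = k + 6 by omega, pow_add]; omega)
    (by rw [show k + 7 - 1 = k + 6 by omega, pow_add]; omega)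
  classical
  obtain ⟨Γ, hΓS, hdiss, hspan⟩ := ch3 G
    (Finset.univ.filter fun χ : AddChar G ℂ => 1 / 2 ≤ ‖∑ t, (τ t : ℂ) * χ t‖ ^ 2)
  have hcA : (0 : ℝ) < A.card := by exact_mod_cast hA.card_pos
  have hcG : (0 : ℝ) < Fintype.card G := by
    have : 0 < Fintype.card G := Fintype.card_pos_iff.2 ⟨hA.choose⟩
    exact_mod_cast this
  have hcard := ch2 G τ Γ (Real.log (Fintype.card G) - H τ) hτ le_rfl hdiss
    (fun l hl => (Finset.mem_filter.1 (hΓS hl)).2)
  have hlog : 0 ≤ Real.log ((Fintype.card G : ℝ) / A.card) := by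
    apply Real.log_nonneg
    rw [le_div_iff₀ hcA, one_mul]
    exact_mod_cast Finset.card_le_univ A
  refine ⟨Γ, ?_, ?_⟩
  · have e : Real.log ((Fintype.card G : ℝ) / A.card) =
        Real.log (Fintype.card G) - Real.log A.card := Real.log_div hcG.ne' hcA.ne'
    have hD' : Real.log A.card - H τ ≤
        754974720 * ((1 + Real.log K) ^ 2 * (1 + Real.log (1 + Real.log K)) ^ 3) := by
      refine le_trans ?_ hk2
      push_cast at hD ⊢
      exact hD
    have : (Γ.card : ℝ) ≤ 4 * (Real.log ((Fintype.card G : ℝ) / A.card) +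
        754974720 * ((1 + Real.log K) ^ 2 * (1 + Real.log (1 + Real.log K)) ^ 3)) := by
      rw [e]; linarith
    refine this.trans ?_
    linarith
  · intro y hy
    have hy' : ∀ χ : AddChar G ℂ, 1 / 2 ≤ ‖∑ t, (τ t : ℂ) * χ t‖ ^ 2 → ‖χ y - 1‖ ≤ 1 / 4 := by
      intro χ hχ
      by_cases h0 : Γ.card = 0
      · have := hspan χ (Finset.mem_filter.2 ⟨Finset.mem_univ _, hχ⟩) y 0
          (fun l hl => by
            rw [Finset.card_eq_zero] at h0; rw [h0] at hl; exact absurd hl (by simp))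
        rw [h0] at this
        simp only [Nat.cast_zero, mul_zero] at this
        linarith
      · have hpos : (0 : ℝ) < Γ.card := by exact_mod_cast Nat.pos_of_ne_zero h0
        have := hspan χ (Finset.mem_filter.2 ⟨Finset.mem_univ _, hχ⟩) y (1 / (4 * (Γ.card : ℝ)))
          (fun l hl => by
            rw [le_div_iff₀ (by positivity)]; exact hy l hl)
        refine this.trans (le_of_eq ?_)
        field_simp
    obtain ⟨u, v, hu, hv, rfl⟩ := fin2 G σ τ hσ hτ (fin1 G σ τ (1 / 16) hσ hτ hc) y hy'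
    rw [two_nsmul]
    exact hdf u v hu hv

end Pool.Agent.H98.BQ
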