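import Pool.Agent.H98.BQ.Stmt
import Pool.Agent.H98.BG.Final

/-!
# Radius and energy
-/

set_option autoImplicit false

namespace Pool.Agent.H98.BQ

open Finset
open scoped Pointwise
open Pool.Agent.H98.BG

namespace FinL

/-- larger radius for three times the number of characters -/
theorem rdl {G : Type} [AddCommGroup G] [Fintype G] (Γ0 : Finset (AddChar G ℂ))
    (S : Finset G) (C3 ℓ : ℝ) (hC3 : 0 ≤ C3) (hℓ0 : 0.69 ≤ ℓ)
    (hcard : (Γ0.card : ℝ) ≤ C3 * ℓ ^ 3)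
    (hΓ : ∀ y : G, (∀ χ ∈ Γ0, ‖χ y - 1‖ * (4 * (Γ0.card : ℝ)) ≤ 1) → y ∈ S) :
    ∃ Γ : Finset (AddChar G ℂ), (Γ.card : ℝ) ≤ 3 * Γ0.card ∧
      ∀ y : G, (∀ χ ∈ Γ, ‖χ y - 1‖ ≤ 1 / (202 + 200 * C3) / ℓ) → y ∈ S := by
  set C2 : ℝ := 200 * (1 + C3) with hC2
  have e202 : 202 + 200 * C3 = C2 + 2 := by rw [hC2]; ring
  rw [e202]
  set R : ℕ := ⌈C2 * ℓ⌉₊ with hR
  have hC20 : 200 ≤ C2 := by rw [hC2]; nlinarith
  have hR1 : C2 * ℓ ≤ R := Nat.le_ceil _
  have hR2 : (R : ℝ) ≤ C2 * ℓ + 1 := (Nat.ceil_lt_add_one (by positivity)).le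
  have hR3 : (R : ℝ) ≤ (C2 + 2) * ℓ := by nlinarith
  have hRpos : (0 : ℝ) < R := by nlinarith
  have hR4 : 1 ≤ R := by
    have : 0 < R := by exact_mod_cast hRpos
    omega
  have hR5 : 16 * (Γ0.card : ℝ) ≤ (R : ℝ) ^ 3 := by
    have h1 : (C2 * ℓ) ^ 3 ≤ (R : ℝ) ^ 3 := pow_le_pow_left₀ (by positivity) hR1 3
    have h2 : 16 * C3 ≤ C2 ^ 3 := by
      have h3 : C2 ≤ C2 ^ 3 := by
        have : 1 ≤ C2 ^ 2 := by nlinarith
        nlinarith
      have : 16 * C3 ≤ C2 := by rw [hC2]; linarith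
      linarith
    calc 16 * (Γ0.card : ℝ) ≤ 16 * C3 * ℓ ^ 3 := by linarith
      _ ≤ C2 ^ 3 * ℓ ^ 3 := mul_le_mul_of_nonneg_right h2 (by positivity)
      _ = (C2 * ℓ) ^ 3 := by ring
      _ ≤ _ := h1
  classical
  refine ⟨(Γ0 ×ˢ Finset.range 3).image fun p => p.1 ^ (R ^ p.2), ?_, ?_⟩
  · have h1 : (((Γ0 ×ˢ Finset.range 3).image fun p => p.1 ^ (R ^ p.2)).card : ℝ) ≤
        Γ0.card * 3 := by
      have := Finset.card_image_le (s := Γ0 ×ˢ Finset.range 3)
        (f := fun p : AddChar G ℂ × ℕ => p.1 ^ (R ^ p.2))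
      rw [Finset.card_product, Finset.card_range] at this
      exact_mod_cast this
    linarith
  · intro y hy
    have hyR : ∀ χ ∈ Γ0, ‖χ y - 1‖ ≤ 4 / (R : ℝ) ^ 3 := by
      intro χ hχ
      refine FinalL.radc (χ y) (AddChar.norm_apply χ y) R hR4 ?_
      intro j hj
      have h1 := hy (χ ^ (R ^ j)) (Finset.mem_image.2 ⟨(χ, j),
        Finset.mem_product.2 ⟨hχ, Finset.mem_range.2 (by simpa using Nat.lt_succ_of_le hj)⟩, rfl⟩)
      rw [AddChar.pow_apply] at h1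
      refine h1.trans ?_
      rw [div_div, div_le_div_iff_of_pos_left one_pos (by positivity) hRpos]
      exact hR3
    exact hΓ y (fun χ hχ => by
      have h1 := hyR χ hχ
      have h2 : (0 : ℝ) ≤ 4 * Γ0.card := by positivity
      calc ‖χ y - 1‖ * (4 * (Γ0.card : ℝ)) ≤ 4 / (R : ℝ) ^ 3 * (4 * Γ0.card) :=
            mul_le_mul_of_nonneg_right h1 h2
        _ = 16 * Γ0.card / (R : ℝ) ^ 3 := by ring
        _ ≤ 1 := by rw [div_le_one (by positivity)]; exact hR5)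

theorem l2 : (0.69 : ℝ) ≤ Real.log 2 := by linarith [Real.log_two_gt_d9]

theorem l2' : Real.log 2 ≤ 0.7 := by linarith [Real.log_two_lt_d9]

end FinL

open FinL

/-- dense sets -/
theorem dense (h : FGD) : ∃ C c : ℝ, 0 < C ∧ 0 < c ∧
    ∀ (G : Type) [AddCommGroup G] [Fintype G] [DecidableEq G] (A : Finset G), A.Nonempty →
      ∃ Γ : Finset (AddChar G ℂ), (Γ.card : ℝ) ≤
          C * (Real.log (2 * Fintype.card G / A.card) ^ 2 *
            Real.log (2 + Real.log (Fintype.card G / A.card))) ∧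
        ∀ y : G, (∀ χ ∈ Γ, ‖χ y - 1‖ ≤ c / Real.log (2 * Fintype.card G / A.card)) →
          y ∈ 2 • A - 2 • A := by
  obtain ⟨C0, hC0, h0⟩ := h
  refine ⟨30 * C0, 1 / (202 + 200 * (8 * C0)), by positivity, by positivity, ?_⟩
  intro G _ _ _ A hA
  obtain ⟨Γ0, hΓc, hΓ⟩ := h0 G A hA
  have hcA : (0 : ℝ) < A.card := by exact_mod_cast hA.card_pos
  have hcG : (0 : ℝ) < Fintype.card G := by
    have : 0 < Fintype.card G := Fintype.card_pos_iff.2 ⟨hA.choose⟩
    exact_mod_cast this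
  have hAG : (A.card : ℝ) ≤ Fintype.card G := by exact_mod_cast Finset.card_le_univ A
  have hGA1 : 1 ≤ (Fintype.card G : ℝ) / A.card := by
    rw [le_div_iff₀ hcA, one_mul]; exact hAG
  have hlGA : 0 ≤ Real.log ((Fintype.card G : ℝ) / A.card) := Real.log_nonneg hGA1
  set L : ℝ := Real.log ((Fintype.card G : ℝ) / A.card) with hL
  have hℓe : Real.log (2 * Fintype.card G / A.card) = Real.log 2 + L := by
    rw [mul_div_assoc, Real.log_mul (by norm_num) (by positivity)]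
  rw [hℓe]
  set ℓ : ℝ := Real.log 2 + L with hℓ
  have a1 := l2
  have a2 := l2'
  have hℓ0 : 0.69 ≤ ℓ := by linarith
  have h1L : 1 + L ≤ 2 * ℓ := by linarith
  have hlog1 : Real.log (1 + L) ≤ L := by
    have := Real.log_le_sub_one_of_pos (show (0 : ℝ) < 1 + L by linarith)
    linarith
  have hlog0 : 0 ≤ Real.log (1 + L) := Real.log_nonneg (by linarith)
  have hlog2 : Real.log (1 + L) ≤ Real.log (2 + L) := Real.log_le_log (by linarith) (by linarith)
  have hlog3 : Real.log 2 ≤ Real.log (2 + L) := Real.log_le_log (by norm_num) (by linarith)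
  have hc3 : (Γ0.card : ℝ) ≤ 8 * C0 * ℓ ^ 3 := by
    have e1 : (1 + L) ^ 2 * (1 + Real.log (1 + L)) ≤ (2 * ℓ) ^ 2 * (2 * ℓ) := by
      apply mul_le_mul _ (by linarith) (by linarith) (by positivity)
      exact pow_le_pow_left₀ (by linarith) h1L 2
    have e2 := mul_le_mul_of_nonneg_left e1 hC0.le
    calc (Γ0.card : ℝ) ≤ C0 * (1 + L) ^ 2 * (1 + Real.log (1 + L)) := hΓc
      _ = C0 * ((1 + L) ^ 2 * (1 + Real.log (1 + L))) := by ring
      _ ≤ C0 * ((2 * ℓ) ^ 2 * (2 * ℓ)) := e2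
      _ = _ := by ring
  obtain ⟨Γ, hΓ3, hΓr⟩ := rdl Γ0 (2 • A - 2 • A) (8 * C0) ℓ (by positivity) hℓ0 hc3 hΓ
  refine ⟨Γ, ?_, hΓr⟩
  have e1 : (1 + L) ^ 2 * (1 + Real.log (1 + L)) ≤ (2 * ℓ) ^ 2 * (2.5 * Real.log (2 + L)) := by
    apply mul_le_mul _ (by linarith) (by linarith) (by positivity)
    exact pow_le_pow_left₀ (by linarith) h1L 2
  have e2 := mul_le_mul_of_nonneg_left e1 hC0.le
  calc (Γ.card : ℝ) ≤ 3 * Γ0.card := hΓ3
    _ ≤ 3 * (C0 * (1 + L) ^ 2 * (1 + Real.log (1 + L))) := by linarith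
    _ = 3 * (C0 * ((1 + L) ^ 2 * (1 + Real.log (1 + L)))) := by ring
    _ ≤ 3 * (C0 * ((2 * ℓ) ^ 2 * (2.5 * Real.log (2 + L)))) := by linarith
    _ = _ := by ring

namespace FinL

theorem cube_log (u : ℝ) (hu : 1 ≤ u) : (1 + Real.log u) ^ 3 ≤ 27 * u := by
  have hu0 : 0 < u := by linarith
  set v : ℝ := u ^ ((1 : ℝ) / 3) with hv
  have hv0 : 0 < v := Real.rpow_pos_of_pos hu0 _
  have hv3 : v ^ 3 = u := by
    rw [hv, ← Real.rpow_natCast, ← Real.rpow_mul hu0.le]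
    norm_num
  have hlog : Real.log u = 3 * Real.log v := by
    rw [← hv3, Real.log_pow]; norm_num
  have h1 := Real.log_le_sub_one_of_pos hv0
  have h2 : 1 + Real.log u ≤ 3 * v := by rw [hlog]; linarith
  have h3 : 0 ≤ 1 + Real.log u := by have := Real.log_nonneg hu; linarith
  calc (1 + Real.log u) ^ 3 ≤ (3 * v) ^ 3 := pow_le_pow_left₀ h3 h2 3
    _ = 27 * v ^ 3 := by ring
    _ = 27 * u := by rw [hv3]

end FinL

/-- sets of large additive energy -/
theorem energy (h : FGK) : ∃ C c : ℝ, 0 < C ∧ 0 < c ∧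
    ∀ (G : Type) [AddCommGroup G] [Fintype G] [DecidableEq G] (A : Finset G) (K : ℝ),
      A.Nonempty → 1 ≤ K → (A.card : ℝ) ^ 3 ≤ K * (A.addEnergy A : ℕ) →
      ∃ Γ : Finset (AddChar G ℂ), (Γ.card : ℝ) ≤
          C * (Real.log (2 * Fintype.card G / A.card) +
            Real.log (2 * K) ^ 2 * Real.log (2 + Real.log K) ^ 3) ∧
        ∀ y : G, (∀ χ ∈ Γ, ‖χ y - 1‖ ≤ c / Real.log (2 * Fintype.card G / A.card)) →
          y ∈ 2 • A - 2 • A := by
  obtain ⟨C0, hC0, h0⟩ := h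
  set C1 : ℝ := 294912 * C0 with hC1
  set C3 : ℝ := 600000 * C0 with hC3
  refine ⟨3 * C1, 1 / (202 + 200 * C3), by positivity, by positivity, ?_⟩
  intro G _ _ _ A K hA hK hE
  have hcA : (0 : ℝ) < A.card := by exact_mod_cast hA.card_pos
  have hcG : (0 : ℝ) < Fintype.card G := by
    have : 0 < Fintype.card G := Fintype.card_pos_iff.2 ⟨hA.choose⟩
    exact_mod_cast this
  have hAG : (A.card : ℝ) ≤ Fintype.card G := by exact_mod_cast Finset.card_le_univ A
  -- the energy is at least `|A|^4/|G|`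
  have hE2 : (A.card : ℝ) ^ 3 ≤ (Fintype.card G / A.card) * (A.addEnergy A : ℕ) := by
    have h1 : A.card ^ 2 * A.card ^ 2 ≤ (A + A).card * A.addEnergy A :=
      Finset.le_card_add_mul_addEnergy A A
    have h2 : (A.card : ℝ) ^ 2 * (A.card : ℝ) ^ 2 ≤ (A + A).card * (A.addEnergy A : ℕ) := by
      exact_mod_cast h1
    have h3 : ((A + A).card : ℝ) ≤ Fintype.card G := by exact_mod_cast Finset.card_le_univ _
    have h4 : (0 : ℝ) ≤ (A.addEnergy A : ℕ) := Nat.cast_nonneg _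
    rw [div_mul_eq_mul_div, le_div_iff₀ hcA]
    nlinarith [mul_le_mul_of_nonneg_right h3 h4]
  set K1 : ℝ := min K (Fintype.card G / A.card) with hK1
  have hGA1 : 1 ≤ (Fintype.card G : ℝ) / A.card := by
    rw [le_div_iff₀ hcA, one_mul]; exact hAG
  have hK11 : 1 ≤ K1 := le_min hK hGA1
  have hE3 : (A.card : ℝ) ^ 3 ≤ K1 * (A.addEnergy A : ℕ) := by
    rcases min_choice K ((Fintype.card G : ℝ) / A.card) with h | h
    · rw [hK1, h]; exact hE
    · rw [hK1, h]; exact hE2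
  obtain ⟨B, hBA, hB, hAB, hBB⟩ := Pool.Agent.H217R3.AK.bsg A hA K1 (by linarith) hE3
  have hcB : (0 : ℝ) < B.card := by exact_mod_cast hB.card_pos
  set K2 : ℝ := 2 ^ 22 * K1 ^ 10 with hK2
  have hK21 : 1 ≤ K2 := by
    have : 1 ≤ K1 ^ 10 := one_le_pow₀ hK11
    rw [hK2]; nlinarith
  obtain ⟨Γ0, hΓc, hΓ⟩ := h0 G B K2 hB hK21 hBB
  set ℓ : ℝ := Real.log (2 * Fintype.card G / A.card) with hℓ
  have a1 := l2
  have a2 := l2'
  have hℓe : ℓ = Real.log 2 + Real.log (Fintype.card G / A.card) := by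
    rw [hℓ, mul_div_assoc, Real.log_mul (by norm_num) (by positivity)]
  have hlGA : 0 ≤ Real.log ((Fintype.card G : ℝ) / A.card) := Real.log_nonneg hGA1
  have hℓ0 : 0.69 ≤ ℓ := by linarith
  have hlK1 : 0 ≤ Real.log K1 := Real.log_nonneg hK11
  have hlK1' : Real.log K1 ≤ Real.log (Fintype.card G / A.card) :=
    Real.log_le_log (by linarith) (min_le_right _ _)
  have hlKK : Real.log K1 ≤ Real.log K := Real.log_le_log (by linarith) (min_le_left _ _)
  -- the density of `B`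
  have hd1 : Real.log ((Fintype.card G : ℝ) / B.card) ≤ 6 * ℓ := by
    have h1 : (Fintype.card G : ℝ) / B.card ≤ 8 * K1 * (Fintype.card G / A.card) := by
      rw [div_le_iff₀ hcB]
      have : 8 * K1 * ((Fintype.card G : ℝ) / A.card) * B.card =
          Fintype.card G * ((8 * K1 * B.card) / A.card) := by ring
      rw [this]
      have h2 : 1 ≤ (8 * K1 * B.card) / A.card := by
        rw [le_div_iff₀ hcA, one_mul]; exact hAB
      nlinarith
    have h3 : Real.log ((Fintype.card G : ℝ) / B.card) ≤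
        Real.log (8 * K1 * (Fintype.card G / A.card)) :=
      Real.log_le_log (by positivity) h1
    have h4 : Real.log (8 * K1 * ((Fintype.card G : ℝ) / A.card)) =
        Real.log 8 + Real.log K1 + Real.log (Fintype.card G / A.card) := by
      rw [Real.log_mul (by positivity) (by positivity),
        Real.log_mul (by norm_num) (by positivity)]
    have h5 : Real.log 8 = 3 * Real.log 2 := by
      rw [show (8 : ℝ) = 2 ^ 3 by norm_num, Real.log_pow]; norm_num
    rw [h4, h5] at h3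
    linarith
  have hL2 : Real.log (2 * K1) = Real.log 2 + Real.log K1 := by
    rw [Real.log_mul (by norm_num) (by positivity)]
  have hlK2 : 1 + Real.log K2 ≤ 24 * Real.log (2 * K1) := by
    rw [hK2, Real.log_mul (by norm_num) (by positivity), Real.log_pow, Real.log_pow, hL2]
    push_cast
    linarith
  have hL1 : 0.69 ≤ Real.log (2 * K1) := by linarith
  have hlK20 : 0 ≤ Real.log K2 := Real.log_nonneg hK21
  set u : ℝ := 1 + Real.log K2 with hu
  have hu1 : 1 ≤ u := by linarith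
  have hlu0 : 0 ≤ Real.log u := Real.log_nonneg hu1
  set M : ℝ := Real.log (2 + Real.log K1) with hM
  have hM0 : Real.log 2 ≤ M := Real.log_le_log (by norm_num) (by linarith)
  have hlu : 1 + Real.log u ≤ 8 * M := by
    have e1 : Real.log u ≤ Real.log (24 * (2 + Real.log K1)) :=
      Real.log_le_log (by linarith) (by linarith)
    have e2 : Real.log (24 * (2 + Real.log K1)) = Real.log 24 + M :=
      Real.log_mul (by norm_num) (by linarith)
    have e3 : Real.log 24 ≤ Real.log 32 := Real.log_le_log (by norm_num) (by norm_num)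
    have e4 : Real.log 32 = 5 * Real.log 2 := by
      rw [show (32 : ℝ) = 2 ^ 5 by norm_num, Real.log_pow]; norm_num
    rw [e2] at e1
    linarith
  have hpw : u ^ 2 * (1 + Real.log u) ^ 3 ≤ 294912 * (Real.log (2 * K1) ^ 2 * M ^ 3) := by
    have e1 : u ^ 2 ≤ (24 * Real.log (2 * K1)) ^ 2 := pow_le_pow_left₀ (by linarith) hlK2 2
    have e2 : (1 + Real.log u) ^ 3 ≤ (8 * M) ^ 3 := pow_le_pow_left₀ (by linarith) hlu 3
    calc u ^ 2 * (1 + Real.log u) ^ 3 ≤ (24 * Real.log (2 * K1)) ^ 2 * (8 * M) ^ 3 :=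
          mul_le_mul e1 e2 (by positivity) (by positivity)
      _ = _ := by ring
  have hΓc1 : (Γ0.card : ℝ) ≤ C1 * (ℓ + Real.log (2 * K1) ^ 2 * M ^ 3) := by
    refine hΓc.trans ?_
    rw [hC1, mul_comm 294912 C0, mul_assoc]
    apply mul_le_mul_of_nonneg_left _ hC0.le
    linarith
  -- absolute bound by `ℓ^3`
  have hΓc2 : (Γ0.card : ℝ) ≤ C3 * ℓ ^ 3 := by
    refine hΓc.trans ?_
    rw [hC3, mul_comm 600000 C0, mul_assoc]
    apply mul_le_mul_of_nonneg_left _ hC0.le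
    have e1 : u ≤ 24 * ℓ := by linarith
    have e3 : u ^ 2 * (1 + Real.log u) ^ 3 ≤ u ^ 2 * (27 * u) :=
      mul_le_mul_of_nonneg_left (cube_log u hu1) (by positivity)
    have e4 : u ^ 3 ≤ (24 * ℓ) ^ 3 := pow_le_pow_left₀ (by linarith) e1 3
    have e5 : ℓ ≤ 8 * ℓ ^ 3 := by nlinarith [sq_nonneg (ℓ - 0.69), sq_nonneg ℓ]
    calc Real.log ((Fintype.card G : ℝ) / B.card) + u ^ 2 * (1 + Real.log u) ^ 3
        ≤ 6 * ℓ + u ^ 2 * (27 * u) := by linarith
      _ = 6 * ℓ + 27 * u ^ 3 := by ring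
      _ ≤ 6 * (8 * ℓ ^ 3) + 27 * (24 * ℓ) ^ 3 := by linarith
      _ ≤ 600000 * ℓ ^ 3 := by nlinarith [show 0 ≤ ℓ ^ 3 by positivity]
  obtain ⟨Γ, hΓ3, hΓr⟩ := rdl Γ0 (2 • B - 2 • B) C3 ℓ (by positivity) hℓ0 hΓc2 hΓ
  refine ⟨Γ, ?_, fun y hy => Finset.sub_subset_sub (Finset.nsmul_subset_nsmul_left hBA)
      (Finset.nsmul_subset_nsmul_left hBA) (hΓr y hy)⟩
  have hK12 : Real.log (2 * K1) ≤ Real.log (2 * K) :=
    Real.log_le_log (by positivity) (by have := min_le_left K ((Fintype.card G : ℝ) / A.card)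
                                        rw [← hK1] at this
                                        linarith)
  have hM2 : M ≤ Real.log (2 + Real.log K) := Real.log_le_log (by linarith) (by linarith)
  have e1 : Real.log (2 * K1) ^ 2 * M ^ 3 ≤
      Real.log (2 * K) ^ 2 * Real.log (2 + Real.log K) ^ 3 := by
    apply mul_le_mul _ _ (pow_nonneg (by linarith) 3) (by positivity)
    · exact pow_le_pow_left₀ (by linarith) hK12 2
    · exact pow_le_pow_left₀ (by linarith) hM2 3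
  have e2 := mul_le_mul_of_nonneg_left e1 (show 0 ≤ C1 by positivity)
  calc (Γ.card : ℝ) ≤ 3 * Γ0.card := hΓ3
    _ ≤ 3 * (C1 * (ℓ + Real.log (2 * K1) ^ 2 * M ^ 3)) := by linarith
    _ ≤ 3 * (C1 * (ℓ + Real.log (2 * K) ^ 2 * Real.log (2 + Real.log K) ^ 3)) := by linarith
    _ = _ := by ring

end Pool.Agent.H98.BQ
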