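import Pool.Agent.H98.BQ.Fin
import Pool.Agent.H98.BG.Fq

/-!
# Vector spaces over prime fields
-/

set_option autoImplicit false

namespace Pool.Agent.H98.BQ

open Finset
open scoped Pointwise
open Pool.Agent.H98.BG

/-- sets of density at least `1/K` in vector spaces over prime fields -/
theorem fqd (h : FGD) : ∃ C : ℝ, 0 < C ∧
    ∀ (q : ℕ) [Fact q.Prime] (n : ℕ) (A : Finset (Fin n → ZMod q)) (K : ℝ), A.Nonempty → 2 ≤ K →
      (q : ℝ) ^ n ≤ K * A.card →
      ∃ V : Submodule (ZMod q) (Fin n → ZMod q),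
        (n : ℝ) ≤ Module.finrank (ZMod q) V +
          C * (Real.log K ^ 2 * Real.log (2 + Real.log K)) ∧
        ∀ v ∈ V, v ∈ 2 • A - 2 • A := by
  obtain ⟨C, c, hC, hc, h⟩ := dense h
  refine ⟨4 * C, by positivity, ?_⟩
  intro q hq n A K hA hK hAK
  have hcA : (0 : ℝ) < A.card := by exact_mod_cast hA.card_pos
  have hcard : (Fintype.card (Fin n → ZMod q) : ℝ) = (q : ℝ) ^ n := by
    rw [Fintype.card_fun, ZMod.card, Fintype.card_fin]; push_cast; rfl
  obtain ⟨Γ, hΓ, hy⟩ := h (Fin n → ZMod q) A hA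
  obtain ⟨V, hV, hVχ⟩ := FqL.exists_submodule Γ
  have hcardA : (A.card : ℝ) ≤ (q : ℝ) ^ n := by
    rw [← hcard]; exact_mod_cast Finset.card_le_univ A
  have hl2 : (0.69 : ℝ) ≤ Real.log 2 := by linarith [Real.log_two_gt_d9]
  have hlK : Real.log 2 ≤ Real.log K := Real.log_le_log (by norm_num) hK
  have h2K : Real.log (2 * K) ≤ 2 * Real.log K := by
    rw [Real.log_mul (by norm_num) (by linarith)]; linarith
  have hqn : (0 : ℝ) < (q : ℝ) ^ n := by linarith
  have hℓ : Real.log (2 * Fintype.card (Fin n → ZMod q) / A.card) ≤ 2 * Real.log K := by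
    rw [hcard]
    refine le_trans ?_ h2K
    apply Real.log_le_log (by positivity)
    rw [div_le_iff₀ hcA]
    linarith
  have hℓ0 : 0 ≤ Real.log (2 * Fintype.card (Fin n → ZMod q) / A.card) := by
    rw [hcard]
    apply Real.log_nonneg
    rw [le_div_iff₀ hcA]
    linarith
  have hL0 : 0 ≤ Real.log (Fintype.card (Fin n → ZMod q) / A.card) := by
    rw [hcard]
    apply Real.log_nonneg
    rw [le_div_iff₀ hcA]
    linarith
  have hL1 : Real.log (Fintype.card (Fin n → ZMod q) / A.card) ≤ Real.log K := by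
    rw [hcard]
    apply Real.log_le_log (by positivity)
    rw [div_le_iff₀ hcA]
    linarith
  have hM : Real.log (2 + Real.log (Fintype.card (Fin n → ZMod q) / A.card)) ≤
      Real.log (2 + Real.log K) := Real.log_le_log (by linarith) (by linarith)
  have hM0 : 0 ≤ Real.log (2 + Real.log (Fintype.card (Fin n → ZMod q) / A.card)) :=
    Real.log_nonneg (by linarith)
  refine ⟨V, ?_, ?_⟩
  · have h4 : (n : ℝ) ≤ Module.finrank (ZMod q) V + Γ.card := by exact_mod_cast hV
    have h6 : Real.log (2 * Fintype.card (Fin n → ZMod q) / A.card) ^ 2 *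
        Real.log (2 + Real.log (Fintype.card (Fin n → ZMod q) / A.card)) ≤
        (2 * Real.log K) ^ 2 * Real.log (2 + Real.log K) :=
      mul_le_mul (pow_le_pow_left₀ hℓ0 hℓ 2) hM hM0 (by positivity)
    have h5 : (Γ.card : ℝ) ≤ 4 * C * (Real.log K ^ 2 * Real.log (2 + Real.log K)) := by
      refine hΓ.trans ?_
      refine (mul_le_mul_of_nonneg_left h6 hC.le).trans (le_of_eq ?_)
      ring
    linarith
  · intro v hv
    apply hy
    intro χ hχ
    rw [hVχ v hv χ hχ, sub_self, norm_zero]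
    exact div_nonneg hc.le hℓ0

end Pool.Agent.H98.BQ
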