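import Pool.Agent.H98.BQ.Stmt

/-!
# The losses are small
-/

set_option autoImplicit false

namespace Pool.Agent.H98.BQ

open Finset
open scoped Pointwise
open Pool.Agent.H98.BG

namespace LOSL

theorem exp_neg24 : Real.exp (-24) ≤ 1 / 1024 := by
  have h1 : (2 : ℝ) ≤ Real.exp 1 := by
    have := Real.add_one_le_exp 1
    linarith
  have h2 : (2 : ℝ) ^ 24 ≤ Real.exp 1 ^ 24 := pow_le_pow_left₀ (by norm_num) h1 24
  have h3 : Real.exp 1 ^ 24 = Real.exp 24 := by
    rw [← Real.exp_nat_mul]
    norm_num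
  rw [h3] at h2
  rw [Real.exp_neg, one_div]
  apply inv_anti₀ (by norm_num)
  exact le_trans (by norm_num) h2

theorem exp_neg6 : Real.exp (-6) ≤ 1 / 300 := by
  have h1 : (2.7 : ℝ) ≤ Real.exp 1 := by
    have := Real.exp_one_gt_d9
    linarith
  have h2 : (2.7 : ℝ) ^ 6 ≤ Real.exp 1 ^ 6 := pow_le_pow_left₀ (by norm_num) h1 6
  have h3 : Real.exp 1 ^ 6 = Real.exp 6 := by
    rw [← Real.exp_nat_mul]
    norm_num
  rw [h3] at h2
  rw [Real.exp_neg, one_div]
  apply inv_anti₀ (by norm_num)
  exact le_trans (by norm_num) h2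

end LOSL

open LOSL

theorem los (vr : VAR) (sq : SEQ) : LOS := by
  intro G _ _ _ A E lam q n hA hlam hq hD i hi
  have hq0 : 0 ≤ q := by linarith
  obtain ⟨hP, -, hs, hZ, hlog⟩ := sq G A E lam q n hA hq0 hD i
  have hlog := hlog hi.le
  have hA0 : (0 : ℝ) < A.card := by exact_mod_cast hA.card_pos
  obtain ⟨s, hsdef⟩ : ∃ s : G → ℝ, s = sg A E q i := ⟨_, rfl⟩
  have hs1 : sg A E q (i + 1) = WL q (A + A) (E (i + 1)) s := by
    rw [hsdef]
    rfl
  rw [hs1]
  rw [← hsdef] at hP hs hZ hlog ⊢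
  obtain ⟨f, hf⟩ : ∃ f : G → ℝ, f = pr s (A + A) := ⟨_, rfl⟩
  obtain ⟨Z, hZd⟩ : ∃ Z, Z = ZZ q (A + A) (E (i + 1)) s := ⟨_, rfl⟩
  obtain ⟨W, hWd⟩ : ∃ W, W = ∑ x ∈ E (i + 2), Real.exp (q * pr s (A + A) x) := ⟨_, rfl⟩
  rw [← hZd] at hZ hlog
  rw [← hWd]
  -- the size of `A`
  have hAZ : (A.card : ℝ) ≤ Z * Real.exp (lam - q) := by
    have h1 : Real.log A.card ≤ Real.log Z + (lam - q) := by linarith
    have h2 := Real.exp_le_exp.2 h1
    rwa [Real.exp_log hA0, Real.exp_add, Real.exp_log hZ] at h2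
  have hcard : ∀ j, j ≤ n + 1 → ((E j).card : ℝ) ≤ Z * Real.exp (2 * lam - q) := by
    intro j hj
    refine (hD.card j hj).trans ?_
    calc Real.exp lam * A.card ≤ Real.exp lam * (Z * Real.exp (lam - q)) :=
          mul_le_mul_of_nonneg_left hAZ (Real.exp_pos _).le
      _ = Z * Real.exp (2 * lam - q) := by
          have : Real.exp (2 * lam - q) = Real.exp lam * Real.exp (lam - q) := by
            rw [← Real.exp_add]
            congr 1
            ring
          rw [this]
          ring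
  have hsub : E (i + 1) ⊆ E (i + 2) := by
    intro x hx
    obtain ⟨a, ha⟩ := hA
    have := hD.add (i + 1) x hx a ha a ha
    rwa [add_sub_cancel_right] at this
  have hWZ : W ≤ Z * (1 + 1 / 1024) := by
    have h1 : W = ∑ x ∈ E (i + 2) \ E (i + 1), Real.exp (q * pr s (A + A) x) + Z := by
      rw [hWd, hZd]
      unfold ZZ
      exact (Finset.sum_sdiff hsub).symm
    have h2 : ∑ x ∈ E (i + 2) \ E (i + 1), Real.exp (q * pr s (A + A) x) =
        ((E (i + 2) \ E (i + 1)).card : ℝ) := by
      rw [Finset.card_eq_sum_ones, Nat.cast_sum]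
      refine Finset.sum_congr rfl fun x hx => ?_
      have h3 : pr s (A + A) x = 0 := by
        by_contra hne
        exact (Finset.mem_sdiff.1 hx).2 (hs x hne)
      rw [h3, mul_zero, Real.exp_zero, Nat.cast_one]
    have h3 : ((E (i + 2) \ E (i + 1)).card : ℝ) ≤ (E (i + 2)).card := by
      exact_mod_cast Finset.card_le_card Finset.sdiff_subset
    have h4 := hcard (i + 2) (by omega)
    have h5 : Real.exp (2 * lam - q) ≤ 1 / 1024 :=
      (Real.exp_le_exp.2 (by linarith)).trans exp_neg24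
    have h6 : Z * Real.exp (2 * lam - q) ≤ Z * (1 / 1024) := mul_le_mul_of_nonneg_left h5 hZ.le
    rw [h1, h2]
    linarith
  have hZW : Z ≤ W := by
    rw [hZd, hWd]
    unfold ZZ
    exact Finset.sum_le_sum_of_subset_of_nonneg hsub fun _ _ _ => (Real.exp_pos _).le
  have hW0 : 0 < W := hZ.trans_le hZW
  have hne : (E (i + 1)).Nonempty := by
    by_contra h
    rw [Finset.not_nonempty_iff_eq_empty] at h
    rw [hZd, h] at hZ
    unfold ZZ at hZ
    rw [Finset.sum_empty] at hZ
    exact lt_irrefl _ hZ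
  constructor
  · obtain ⟨-, -, h1, -, -⟩ := vr G q (A + A) (E (i + 1)) s hP hne
    rw [← hZd] at h1
    have h2 : Real.log W ≤ Real.log Z + 1 / 1024 := by
      have h3 : Real.log (W / Z) ≤ W / Z - 1 := Real.log_le_sub_one_of_pos (div_pos hW0 hZ)
      rw [Real.log_div hW0.ne' hZ.ne'] at h3
      have h4 : W / Z ≤ 1 + 1 / 1024 := by
        rw [div_le_iff₀ hZ]
        linarith
      linarith
    linarith
  · -- the second law
    obtain ⟨F, hF⟩ : ∃ F, F = (E (i + 1)).filter fun x => 3 / 4 ≤ pr s (A + A) x := ⟨_, rfl⟩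
    obtain ⟨ZF, hZF⟩ : ∃ ZF, ZF = ZZ q (A + A) F s := ⟨_, rfl⟩
    have hZF1 : Z * (1 - 1 / 300) ≤ ZF := by
      have h1 : Z = ZF + ∑ x ∈ (E (i + 1)).filter (fun x => ¬ 3 / 4 ≤ pr s (A + A) x),
          Real.exp (q * pr s (A + A) x) := by
        rw [hZd, hZF, hF]
        unfold ZZ
        exact (Finset.sum_filter_add_sum_filter_not _ _ _).symm
      have h2 : ∑ x ∈ (E (i + 1)).filter (fun x => ¬ 3 / 4 ≤ pr s (A + A) x),
          Real.exp (q * pr s (A + A) x) ≤ ((E (i + 1)).card : ℝ) * Real.exp (3 / 4 * q) := by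
        calc ∑ x ∈ (E (i + 1)).filter (fun x => ¬ 3 / 4 ≤ pr s (A + A) x),
          Real.exp (q * pr s (A + A) x) ≤
            ∑ x ∈ (E (i + 1)).filter (fun x => ¬ 3 / 4 ≤ pr s (A + A) x),
              Real.exp (3 / 4 * q) := by
              refine Finset.sum_le_sum fun x hx => Real.exp_le_exp.2 ?_
              have h3 := (Finset.mem_filter.1 hx).2
              push Not at h3
              nlinarith
          _ = (((E (i + 1)).filter (fun x => ¬ 3 / 4 ≤ pr s (A + A) x)).card : ℝ) *
              Real.exp (3 / 4 * q) := by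
              rw [Finset.sum_const, nsmul_eq_mul]
          _ ≤ ((E (i + 1)).card : ℝ) * Real.exp (3 / 4 * q) := by
              apply mul_le_mul_of_nonneg_right _ (Real.exp_pos _).le
              exact_mod_cast Finset.card_filter_le _ _
      have h3 := mul_le_mul_of_nonneg_right (hcard (i + 1) (by omega))
        (Real.exp_pos (3 / 4 * q)).le
      have h4 : Z * Real.exp (2 * lam - q) * Real.exp (3 / 4 * q) =
          Z * Real.exp (2 * lam - q / 4) := by
        rw [mul_assoc, ← Real.exp_add]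
        congr 2
        ring
      have h5 : Real.exp (2 * lam - q / 4) ≤ 1 / 300 :=
        (Real.exp_le_exp.2 (by linarith)).trans exp_neg6
      have h6 : Z * Real.exp (2 * lam - q / 4) ≤ Z * (1 / 300) :=
        mul_le_mul_of_nonneg_left h5 hZ.le
      rw [h4] at h3
      linarith
    have hZF0 : 0 < ZF := lt_of_lt_of_le (by positivity) hZF1
    have hFne : F.Nonempty := by
      by_contra h
      rw [Finset.not_nonempty_iff_eq_empty] at h
      rw [hZF, h] at hZF0
      unfold ZZ at hZF0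
      rw [Finset.sum_empty] at hZF0
      exact lt_irrefl _ hZF0
    obtain ⟨-, h0, h1, -, -⟩ := vr G q (A + A) F s hP hFne
    rw [← hZF] at h1
    refine ⟨WL q (A + A) F s, h0, ?_, ?_⟩
    · intro x hx
      have hxF : x ∈ F := by
        by_contra hn
        apply hx
        unfold WL
        rw [if_neg hn]
      rw [hF, Finset.mem_filter] at hxF
      exact hxF
    · have h2 : Real.log W ≤ Real.log ZF + 1 / 128 := by
        have h3 : Real.log (W / ZF) ≤ W / ZF - 1 :=
          Real.log_le_sub_one_of_pos (div_pos hW0 hZF0)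
        rw [Real.log_div hW0.ne' hZF0.ne'] at h3
        have h4 : W / ZF ≤ 1 + 1 / 128 := by
          rw [div_le_iff₀ hZF0]
          nlinarith
        linarith
      linarith

end Pool.Agent.H98.BQ
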