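import Pool.Agent.H98.BQ.Stmt

/-!
# The normalising factors are large
-/

set_option autoImplicit false

namespace Pool.Agent.H98.BQ

open Finset
open scoped Pointwise
open Pool.Agent.H98.BG

namespace SEQL

theorem sg_zero {G : Type} [AddCommGroup G] [Fintype G] [DecidableEq G] (A : Finset G)
    (E : ℕ → Finset G) (q : ℝ) : sg A E q 0 = GO0L.un A := rfl

theorem sg_succ {G : Type} [AddCommGroup G] [Fintype G] [DecidableEq G] (A : Finset G)
    (E : ℕ → Finset G) (q : ℝ) (i : ℕ) :
    sg A E q (i + 1) = WL q (A + A) (E (i + 1)) (sg A E q i) := rfl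

theorem WL_supp {G : Type} [AddCommGroup G] [Fintype G] [DecidableEq G] (q : ℝ) (B X : Finset G)
    (σ : G → ℝ) (x : G) (h : WL q B X σ x ≠ 0) : x ∈ X := by
  by_contra hx
  exact h (if_neg hx)

theorem pr_un {G : Type} [AddCommGroup G] [Fintype G] [DecidableEq G] (A : Finset G)
    (hA : A.Nonempty) {x : G} (hx : x ∈ A) : pr (GO0L.un A) (A + A) x = 1 := by
  rw [← (GO0L.un_isP A hA).2]
  unfold pr
  refine Finset.sum_congr rfl fun s _ => ?_
  split_ifs with h
  · rfl
  · by_contra hne
    exact h (Finset.add_mem_add hx (GO0L.un_supp A s fun h0 => hne h0.symm))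

end SEQL

open SEQL

theorem sq (vr : VAR) (bas : BAS) : SEQ := by
  intro G _ _ _ A E lam q n hA hq hD
  obtain ⟨b1, -⟩ := bas G
  have hA0 : (0 : ℝ) < A.card := by exact_mod_cast hA.card_pos
  have hmono : ∀ i, E i ⊆ E (i + 1) := by
    intro i x hx
    obtain ⟨a, ha⟩ := hA
    have h1 := hD.add i x hx a ha a ha
    rwa [add_sub_cancel_right] at h1
  have hne : ∀ i, (E i).Nonempty := by
    intro i
    induction i with
    | zero => exact hA.mono hD.base
    | succ i ih => exact ih.mono (hmono i)
  have hP : ∀ i, IsP (sg A E q i) := by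
    intro i
    induction i with
    | zero => exact GO0L.un_isP A hA
    | succ i ih => exact (vr G q (A + A) (E (i + 1)) (sg A E q i) ih (hne (i + 1))).2.1
  have hvr := fun i => vr G q (A + A) (E (i + 1)) (sg A E q i) (hP i) (hne (i + 1))
  have hsupp : ∀ i x, sg A E q i x ≠ 0 → x ∈ E i := by
    intro i x h
    cases i with
    | zero => exact hD.base (GO0L.un_supp A x h)
    | succ i => exact WL_supp _ _ _ _ x h
  have hpr : ∀ i x, pr (sg A E q i) (A + A) x ≠ 0 → x ∈ E (i + 1) := by
    intro i x h
    unfold pr at h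
    obtain ⟨s, -, hs⟩ := Finset.exists_ne_zero_of_sum_ne_zero h
    have h1 : x + s ∈ A + A := by
      by_contra hn
      exact hs (if_neg hn)
    rw [if_pos h1] at hs
    have h2 := hD.refl i s (hsupp i s hs) (x + s) h1
    rwa [add_sub_cancel_right] at h2
  have hpot : ∀ i, 2 * Real.log A.card + q ≤
      Real.log (ZZ q (A + A) (E (i + 1)) (sg A E q i)) + H (sg A E q i) := by
    intro i
    induction i with
    | zero =>
      have h1 : (A.card : ℝ) * Real.exp q ≤ ZZ q (A + A) (E (0 + 1)) (sg A E q 0) := by
        have h2 : (A.card : ℝ) * Real.exp q =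
            ∑ x ∈ A, Real.exp (q * pr (sg A E q 0) (A + A) x) := by
          rw [← nsmul_eq_mul, ← Finset.sum_const]
          refine Finset.sum_congr rfl fun x hx => ?_
          rw [sg_zero, pr_un A hA hx, mul_one]
        rw [h2]
        unfold ZZ
        exact Finset.sum_le_sum_of_subset_of_nonneg (hD.base.trans (hmono 0))
          fun x _ _ => (Real.exp_pos _).le
      have h3 : Real.log A.card + q ≤ Real.log (ZZ q (A + A) (E (0 + 1)) (sg A E q 0)) := by
        have h4 := Real.log_le_log (by positivity) h1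
        rw [Real.log_mul hA0.ne' (Real.exp_pos q).ne', Real.log_exp] at h4
        exact h4
      have h5 : H (sg A E q 0) = Real.log A.card := by
        rw [sg_zero, GO0L.un_H A hA]
      rw [h5]
      linarith
    | succ i ih =>
      have h1 := (hvr i).2.2.1
      have h2 := (hvr (i + 1)).2.2.2.1 (sg A E q i) (hP i)
        fun x hx => hmono (i + 1) (hmono i (hsupp i x hx))
      have h3 := (hvr (i + 1)).2.2.2.2 (sg A E q i)
      rw [← sg_succ] at h1
      rw [h3] at h2
      linarith
  intro i
  refine ⟨hP i, hsupp i, hpr i, (hvr i).1, fun hi => ?_⟩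
  have h1 := hpot i
  have h2 : H (sg A E q i) ≤ Real.log (E i).card := b1 _ _ (hP i) (hsupp i)
  have h3 : Real.log (E i).card ≤ lam + Real.log A.card := by
    have h4 : (0 : ℝ) < (E i).card := by exact_mod_cast (hne i).card_pos
    have h5 := Real.log_le_log h4 (hD.card i (by omega))
    rw [Real.log_mul (Real.exp_pos _).ne' hA0.ne', Real.log_exp] at h5
    exact h5
  linarith

end Pool.Agent.H98.BQ
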