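import Pool.Agent.H98.BQ.Stmt

/-!
# Alternation inside `A + A`: one step (helper370)
-/

set_option autoImplicit false

namespace Pool.Agent.H98.BQ

open Finset
open scoped Pointwise
open Pool.Agent.H98.BG

namespace STQL

/-- some point of positive weight is at most the mean -/
theorem exists_le {α : Type} [Fintype α] (P f : α → ℝ) (R : ℝ) (hP : IsP P)
    (h : ∑ z, P z * f z ≤ R) : ∃ z, 0 < P z ∧ f z ≤ R := by
  by_contra hcon
  push Not at hcon
  have h1 : ∃ z, 0 < P z := by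
    by_contra h2
    push Not at h2
    have h3 : ∀ z, P z = 0 := fun z => le_antisymm (h2 z) (hP.1 z)
    have h4 := hP.2
    simp only [h3, Finset.sum_const_zero] at h4
    exact zero_ne_one h4
  obtain ⟨z₀, hz₀⟩ := h1
  have h5 : ∑ z, P z * R < ∑ z, P z * f z := by
    refine Finset.sum_lt_sum (fun z _ => ?_) ⟨z₀, Finset.mem_univ _, ?_⟩
    · rcases (hP.1 z).eq_or_lt with h6 | h6
      · rw [← h6, zero_mul, zero_mul]
      · exact mul_le_mul_of_nonneg_left (hcon z h6).le h6.le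
    · exact mul_lt_mul_of_pos_left (hcon z₀ hz₀) hz₀
  rw [← Finset.sum_mul, hP.2, one_mul] at h5
  linarith

end STQL

theorem stq (t1 : T1) (ns : NS) (bas : BAS) : STQ := by
  intro G _ _ _ m q w c e L σ τ ρ B R R' hσ hτ hρ hm hq hqm hw hc h1 h2 h3
  obtain ⟨-, -, -, b4, b5, b6, b7⟩ := bas G
  have hP : IsP (Pz σ τ : (Fin m → G) → ℝ) := b4 m σ τ hσ hτ
  have e1 := t1 G m σ τ c L hσ hτ hc
  have e2 := (ns G m q σ τ ρ B R R' hσ hτ hρ hm hq hqm h1 h2)
  have e3 : ∑ z : Fin m → G, Pz σ τ z * H (cm ρ (post σ τ z)) ≤ H ρ + e + q ^ 2 / m := by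
    linarith
  have e4 : ∑ z : Fin m → G, Pz σ τ z *
      ((L - H (post σ τ z)) + w * (H (cm ρ (post σ τ z)) - H ρ)) ≤
      (L - H τ) + m * c + w * (e + q ^ 2 / m) := by
    have e5 : ∑ z : Fin m → G, Pz σ τ z *
        ((L - H (post σ τ z)) + w * (H (cm ρ (post σ τ z)) - H ρ)) =
        ∑ z : Fin m → G, Pz σ τ z * (L - H (post σ τ z)) +
          w * (∑ z : Fin m → G, Pz σ τ z * H (cm ρ (post σ τ z)) -
            (∑ z : Fin m → G, Pz σ τ z) * H ρ) := by
      rw [Finset.sum_mul, ← Finset.sum_sub_distrib, Finset.mul_sum, ← Finset.sum_add_distrib]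
      refine Finset.sum_congr rfl fun z _ => ?_
      ring
    rw [e5, hP.2, one_mul]
    have e6 : w * (∑ z : Fin m → G, Pz σ τ z * H (cm ρ (post σ τ z)) - H ρ) ≤
        w * (e + q ^ 2 / m) := mul_le_mul_of_nonneg_left (by linarith) hw
    linarith
  obtain ⟨z, hz, hz2⟩ := STQL.exists_le _ _ _ hP e4
  have hpost : IsP (post σ τ z) := b5 m σ τ z hσ hτ hz
  obtain ⟨c1, c2, c3⟩ := b7 ρ (post σ τ z) hpost
  refine ⟨fun t => post σ τ z (-t), c1, fun t ht => b6 m σ τ z (-t) ht, ?_⟩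
  rw [c2, c3]
  exact hz2

end Pool.Agent.H98.BQ
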