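import Pool.Agent.H98.BQ.NS
import Pool.Agent.H98.BQ.STQ
import Pool.Agent.H98.BQ.VAR
import Pool.Agent.H98.BQ.SEQ
import Pool.Agent.H98.BQ.LOS
import Pool.Agent.H98.BQ.CORE
import Pool.Agent.H98.BQ.FGD
import Pool.Agent.H98.BQ.FGK
import Pool.Agent.H98.BQ.Fin
import Pool.Agent.H98.BQ.Fq

/-!
# Bohr sets in `2A - 2A` with `O(log^2(1/α) log log(1/α))` frequencies: assembly
-/

set_option autoImplicit false

namespace Pool.Agent.H98.BQ

open Finset
open scoped Pointwise
open Pool.Agent.H98.BG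

theorem coreMain : CORE := by
  have g := gib
  have b := bas g
  have v := vr g
  have s := sq v b
  exact core (stq (t1 g) (ns g mgf) b) s (los v s) b

theorem fgdMain : FGD := fgd coreMain fin1 fin2 (ch2 gib ch1) ch3

theorem fgkMain : FGK := fgk coreMain fin1 fin2 (ch2 gib ch1) ch3

end Pool.Agent.H98.BQ
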