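import Pool.Agent.H98.BQ.Stmt
import Pool.Agent.H98.BG.S2A
import Pool.Agent.H98.BG.LGM

/-!
# The moment generating function of the empirical frequency, and the mean entropy (`MGF`, `NS`)
-/

set_option autoImplicit false
set_option linter.unusedSectionVars false

namespace Pool.Agent.H98.BQ

open Finset
open scoped Pointwise
open Pool.Agent.H98.BG

namespace NSL

variable {G : Type} [AddCommGroup G] [Fintype G] [DecidableEq G]

theorem exp_le {u : ℝ} (h0 : 0 ≤ u) (h1 : u ≤ 1) : Real.exp u - 1 ≤ u + u ^ 2 := by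
  have h := Real.abs_exp_sub_one_sub_id_le (x := u) (by rw [abs_of_nonneg h0]; exact h1)
  have := (abs_le.1 h).2
  linarith

theorem pr_mem {σ : G → ℝ} (hσ : IsP σ) (B : Finset G) (x : G) :
    0 ≤ pr σ B x ∧ pr σ B x ≤ 1 := by
  constructor
  · unfold pr
    refine sum_nonneg fun s _ => ?_
    split_ifs
    · exact hσ.1 s
    · exact le_rfl
  · rw [← hσ.2]
    unfold pr
    refine sum_le_sum fun s _ => ?_
    split_ifs
    · exact le_rfl
    · exact hσ.1 s

end NSL

open NSL in
theorem mgf : MGF := by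
  intro G _ _ _ m q σ B x hσ hm hq hqm
  have hmr : (0 : ℝ) < m := by exact_mod_cast hm
  set u : ℝ := q / m with hu
  have hu0 : 0 ≤ u := div_nonneg hq hmr.le
  have hu1 : u ≤ 1 := by rw [hu, div_le_one hmr]; exact hqm
  obtain ⟨hf0, hf1⟩ := pr_mem hσ B x
  have h1 : ∀ s : Fin m → G, (∏ i, σ (s i)) * Real.exp (q * em B s x) =
      ∏ i, (σ (s i) * Real.exp (u * if x + s i ∈ B then 1 else 0)) := by
    intro s
    rw [prod_mul_distrib, ← Real.exp_sum, ← mul_sum]
    congr 2
    unfold Pool.Agent.H98.BG.em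
    rw [hu]
    ring
  have h2 : Ex σ (fun s : Fin m → G => Real.exp (q * em B s x)) =
      (1 + pr σ B x * (Real.exp u - 1)) ^ m := by
    unfold Ex
    simp_rw [h1]
    rw [LGML.sum_prod (fun (_ : Fin m) g => σ g * Real.exp (u * if x + g ∈ B then 1 else 0))]
    rw [prod_const, card_univ, Fintype.card_fin]
    congr 1
    have h3 : ∀ g, σ g * Real.exp (u * if x + g ∈ B then 1 else 0) =
        σ g + (if x + g ∈ B then σ g else 0) * (Real.exp u - 1) := by
      intro g
      split_ifs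
      · rw [mul_one]; ring
      · simp
    simp_rw [h3]
    rw [sum_add_distrib, hσ.2, ← sum_mul]
    rfl
  rw [h2]
  have h4 : 1 + pr σ B x * (Real.exp u - 1) ≤ Real.exp (pr σ B x * (u + u ^ 2)) := by
    have h5 := exp_le hu0 hu1
    have h6 := Real.add_one_le_exp (pr σ B x * (u + u ^ 2))
    have h7 := mul_le_mul_of_nonneg_left h5 hf0
    linarith
  have h5 : 0 ≤ 1 + pr σ B x * (Real.exp u - 1) := by
    have h6 : 1 ≤ Real.exp u := Real.one_le_exp hu0
    have h7 := mul_nonneg hf0 (sub_nonneg.2 h6)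
    linarith
  refine (pow_le_pow_left₀ h5 h4 m).trans ?_
  rw [← Real.exp_nat_mul]
  apply Real.exp_le_exp.2
  have e : (m : ℝ) * (pr σ B x * (u + u ^ 2)) = q * pr σ B x + pr σ B x * (q ^ 2 / m) := by
    rw [hu]
    field_simp
  rw [e]
  have h8 : pr σ B x * (q ^ 2 / m) ≤ 1 * (q ^ 2 / m) :=
    mul_le_mul_of_nonneg_right hf1 (by positivity)
  linarith

namespace NSL

variable {G : Type} [AddCommGroup G] [Fintype G] [DecidableEq G]

/-- the function inside the expectation -/
noncomputable def F {m : ℕ} (q : ℝ) (ρ : G → ℝ) (B R' : Finset G) (s : Fin m → G) : ℝ :=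
  -(q * ∑ x, ρ x * em B s x) + Real.log (∑ x ∈ R', Real.exp (q * em B s x))

theorem key (gib : GIB) {m : ℕ} (q : ℝ) {ρ p τ : G → ℝ} (hρ : IsP ρ) (hp : IsP p)
    (hpτ : ∀ t, p t ≠ 0 → τ t ≠ 0)
    (B R R' : Finset G) (hR : ∀ x t, ρ x ≠ 0 → τ t ≠ 0 → x - t ∈ R)
    (hR' : ∀ y t, y ∈ R → τ t ≠ 0 → y + t ∈ R') (z : Fin m → G) :
    H (cm ρ p) ≤ ∑ t, p t * F q ρ B R' (fun i => z i - t) := by
  have hRne : R.Nonempty := by
    obtain ⟨x, hx⟩ := S2AL.ex_ne hρ
    obtain ⟨t, ht⟩ := S2AL.ex_ne hp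
    exact ⟨x - t, hR x t hx (hpτ t ht)⟩
  set Z : ℝ := ∑ y ∈ R, Real.exp (q * em B z y) with hZdef
  have hZ : 0 < Z := sum_pos (fun y _ => Real.exp_pos _) hRne
  set ω : G → ℝ := fun y => if y ∈ R then Real.exp (q * em B z y) / Z else 0 with hωdef
  have hω0 : ∀ y, 0 ≤ ω y := by
    intro y
    simp only [hωdef]
    split_ifs
    · exact div_nonneg (Real.exp_pos _).le hZ.le
    · exact le_rfl
  have hω1 : ∑ y, ω y = 1 := by
    simp only [hωdef]
    rw [sum_ite_mem, univ_inter, ← sum_div]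
    exact div_self hZ.ne'
  have hsupp : ∀ y, cm ρ p y ≠ 0 → y ∈ R := by
    intro y hy
    obtain ⟨t, -, ht⟩ := exists_ne_zero_of_sum_ne_zero hy
    have h1 : ρ (y + t) ≠ 0 := left_ne_zero_of_mul ht
    have h2 : p t ≠ 0 := right_ne_zero_of_mul ht
    have h3 := hR (y + t) t h1 (hpτ t h2)
    rwa [add_sub_cancel_right] at h3
  have g := gib G (cm ρ p) ω (S2AL.cm_isP hρ hp) hω0 hω1.le (fun y hy => by
    simp only [hωdef, if_pos (hsupp y hy)]
    exact div_pos (Real.exp_pos _) hZ)
  have e1 : -∑ y, cm ρ p y * Real.log (ω y) =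
      ∑ y, cm ρ p y * (-(q * em B z y) + Real.log Z) := by
    rw [← sum_neg_distrib]
    refine sum_congr rfl fun y _ => ?_
    by_cases hy : cm ρ p y = 0
    · rw [hy]; simp
    · have h1 : ω y = Real.exp (q * em B z y) / Z := by simp only [hωdef, if_pos (hsupp y hy)]
      rw [h1, Real.log_div (Real.exp_pos _).ne' hZ.ne', Real.log_exp]
      ring
  rw [e1, S2AL.sum_cm] at g
  refine g.trans (sum_le_sum fun t _ => ?_)
  by_cases ht : p t = 0
  · rw [ht, zero_mul, zero_mul]
  refine mul_le_mul_of_nonneg_left ?_ (hp.1 t)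
  have e2 : ∑ x, ρ x * (-(q * em B z (x - t)) + Real.log Z) =
      -(q * ∑ x, ρ x * em B z (x - t)) + Real.log Z := by
    have e3 : ∀ x, ρ x * (-(q * em B z (x - t)) + Real.log Z) =
        -(q * (ρ x * em B z (x - t))) + ρ x * Real.log Z := fun x => by ring
    simp only [e3]
    rw [sum_add_distrib, sum_neg_distrib, ← mul_sum, ← sum_mul, hρ.2, one_mul]
  rw [e2]
  unfold F
  simp only [S2AL.em_shift]
  have e5 : Z ≤ ∑ x ∈ R', Real.exp (q * em B (fun i => z i - t) x) := by
    have e6 : ∀ y, em B z y = em B (fun i => z i - t) (y + t) := by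
      intro y
      rw [← S2AL.em_shift, add_sub_cancel_right]
    have e7 : Z = ∑ x ∈ R.image (fun y => y + t), Real.exp (q * em B (fun i => z i - t) x) := by
      rw [sum_image (fun a _ b _ h => add_right_cancel h)]
      exact sum_congr rfl fun y _ => by rw [e6 y]
    rw [e7]
    refine sum_le_sum_of_subset_of_nonneg ?_ fun x _ _ => (Real.exp_pos _).le
    intro x hx
    obtain ⟨y, hy, rfl⟩ := mem_image.1 hx
    exact hR' y t hy (hpτ t ht)
  have e6 := Real.log_le_log hZ e5
  linarith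

end NSL

open NSL in
theorem ns (gib : GIB) (mgf : MGF) : NS := by
  intro G _ _ _ m q σ τ ρ B R R' hσ hτ hρ hm hq hqm hR hR'
  have hmr : (0 : ℝ) < m := by exact_mod_cast hm
  have h1 : ∀ z : Fin m → G, Pz σ τ z * H (cm ρ (post σ τ z)) ≤
      ∑ t, Wt σ τ z t * F q ρ B R' (fun i => z i - t) := by
    intro z
    rcases (S2AL.Pz_nonneg hσ hτ z).eq_or_lt with h0 | h0
    · have h2 : ∀ t, Wt σ τ z t = 0 := by
        intro t
        have := (sum_eq_zero_iff_of_nonneg (fun t _ => S2AL.Wt_nonneg hσ hτ z t)).1 h0.symm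
        exact this t (mem_univ t)
      rw [← h0]
      simp [h2]
    · have h2 := key gib q hρ (S2AL.post_isP hσ hτ z h0) (fun t ht => by
        intro h
        apply ht
        unfold post Wt
        rw [h]
        simp) B R R' hR hR' z
      calc Pz σ τ z * H (cm ρ (post σ τ z))
          ≤ Pz σ τ z * ∑ t, post σ τ z t * F q ρ B R' (fun i => z i - t) :=
            mul_le_mul_of_nonneg_left h2 h0.le
        _ = ∑ t, Wt σ τ z t * F q ρ B R' (fun i => z i - t) := by
            rw [mul_sum]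
            refine sum_congr rfl fun t _ => ?_
            unfold post
            field_simp
  refine (sum_le_sum fun z _ => h1 z).trans ?_
  rw [sum_comm]
  have h3 : ∀ t, ∑ z : Fin m → G, Wt σ τ z t * F q ρ B R' (fun i => z i - t) =
      τ t * Ex σ (F q ρ B R' : (Fin m → G) → ℝ) := by
    intro t
    unfold Ex
    rw [mul_sum, ← (Equiv.subRight (fun _ : Fin m => t)).sum_comp
      (fun s : Fin m → G => τ t * ((∏ i, σ (s i)) * F q ρ B R' s))]
    refine sum_congr rfl fun z _ => ?_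
    have e : (Equiv.subRight (fun _ : Fin m => t)) z = fun i => z i - t := by
      ext i
      simp
    rw [e]
    unfold Wt
    ring
  simp only [h3]
  rw [← sum_mul, hτ.2, one_mul]
  -- the expectation
  have hR'ne : R'.Nonempty := by
    obtain ⟨x, hx⟩ := S2AL.ex_ne hρ
    obtain ⟨t, ht⟩ := S2AL.ex_ne hτ
    exact ⟨x - t + t, hR' _ t (hR x t hx ht) ht⟩
  set S : ℝ := ∑ x ∈ R', Real.exp (q * pr σ B x) with hSdef
  have hS : 0 < S := sum_pos (fun y _ => Real.exp_pos _) hR'ne
  set M : ℝ := Real.exp (q ^ 2 / m) * S with hMdef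
  have hM : 0 < M := mul_pos (Real.exp_pos _) hS
  have hEY : Ex σ (fun s : Fin m → G => ∑ x ∈ R', Real.exp (q * em B s x)) ≤ M := by
    rw [LGML.Ex_sum σ R' (fun x (s : Fin m → G) => Real.exp (q * em B s x)), hMdef, hSdef, mul_sum]
    refine sum_le_sum fun x _ => ?_
    refine (mgf G m q σ B x hσ hm hq hqm).trans (le_of_eq ?_)
    rw [← Real.exp_add]
    congr 1
    ring
  have hpt : ∀ s : Fin m → G, F q ρ B R' s ≤
      (-q) * (∑ x, ρ x * em B s x) + ((Real.log M - 1) +
        (1 / M) * ∑ x ∈ R', Real.exp (q * em B s x)) := by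
    intro s
    unfold F
    have hY : 0 < ∑ x ∈ R', Real.exp (q * em B s x) := sum_pos (fun y _ => Real.exp_pos _) hR'ne
    have a := Real.log_le_sub_one_of_pos (div_pos hY hM)
    rw [Real.log_div hY.ne' hM.ne'] at a
    have b : (1 / M) * ∑ x ∈ R', Real.exp (q * em B s x) =
        (∑ x ∈ R', Real.exp (q * em B s x)) / M := by ring
    rw [b]
    linarith
  have h4 := LGML.Ex_mono σ hσ.1 _ _ hpt
  refine h4.trans ?_
  rw [LGML.Ex_add, LGML.Ex_smul, LGML.Ex_sum σ univ (fun x (s : Fin m → G) => ρ x * em B s x),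
    LGML.Ex_add, LGML.Ex_const σ hσ.2, LGML.Ex_smul]
  have h5 : ∀ x, Ex σ (fun s : Fin m → G => ρ x * em B s x) = ρ x * pr σ B x := by
    intro x
    rw [LGML.Ex_smul]
    congr 1
    have h6 := (LGML.Ex_em σ hσ B x hm).1
    have h7 : (fun s : Fin m → G => em B s x - pr σ B x) =
        fun s : Fin m → G => em B s x + (-pr σ B x) := by
      funext s
      ring
    rw [h7, LGML.Ex_add, LGML.Ex_const σ hσ.2] at h6
    linarith
  simp only [h5]
  have h8 : (1 / M) * Ex σ (fun s : Fin m → G => ∑ x ∈ R', Real.exp (q * em B s x)) ≤ 1 := by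
    have := mul_le_mul_of_nonneg_left hEY (by positivity : (0 : ℝ) ≤ 1 / M)
    rwa [one_div_mul_cancel hM.ne'] at this
  have h9 : Real.log M = q ^ 2 / m + Real.log S := by
    rw [hMdef, Real.log_mul (Real.exp_pos _).ne' hS.ne', Real.log_exp]
  rw [h9]
  linarith

end Pool.Agent.H98.BQ
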