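import Pool.Agent.H98.BG.Stmt
import Pool.Agent.H98.BG.GO0

/-!
# Alternation inside `A + A`: statements

`B` is a finite set, `X` and `S` are independent; the law of `X` is proportional to
`exp (q * P (x + S ∈ B))` on a finite set.
-/

set_option autoImplicit false

namespace Pool.Agent.H98.BQ

open Finset
open scoped Pointwise
open Pool.Agent.H98.BG

section

variable {G : Type} [AddCommGroup G] [Fintype G] [DecidableEq G]

/-- the normalising factor -/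
noncomputable def ZZ (q : ℝ) (B X : Finset G) (σ : G → ℝ) : ℝ :=
  ∑ x ∈ X, Real.exp (q * pr σ B x)

/-- the law on `X` with weights proportional to `exp (q * pr σ B x)` -/
noncomputable def WL (q : ℝ) (B X : Finset G) (σ : G → ℝ) (x : G) : ℝ :=
  if x ∈ X then Real.exp (q * pr σ B x) / ZZ q B X σ else 0

end

/-- the moment generating function of the empirical frequency -/
def MGF : Prop := ∀ (G : Type) [AddCommGroup G] [Fintype G] [DecidableEq G] (m : ℕ) (q : ℝ)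
  (σ : G → ℝ) (B : Finset G) (x : G), IsP σ → 0 < m → 0 ≤ q → q ≤ m →
  Ex σ (fun s : Fin m → G => Real.exp (q * em B s x)) ≤ Real.exp (q * pr σ B x + q ^ 2 / m)

/-- the mean entropy of `X - T` given `m` samples `S_i + T` -/
def NS : Prop := ∀ (G : Type) [AddCommGroup G] [Fintype G] [DecidableEq G] (m : ℕ) (q : ℝ)
  (σ τ ρ : G → ℝ) (B R R' : Finset G), IsP σ → IsP τ → IsP ρ → 0 < m → 0 ≤ q → q ≤ m →
  (∀ x t, ρ x ≠ 0 → τ t ≠ 0 → x - t ∈ R) → (∀ y t, y ∈ R → τ t ≠ 0 → y + t ∈ R') →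
  ∑ z : Fin m → G, Pz σ τ z * H (cm ρ (post σ τ z)) ≤
    -(q * ∑ x, ρ x * pr σ B x) + Real.log (∑ x ∈ R', Real.exp (q * pr σ B x)) + q ^ 2 / m

/-- one step: `e` is the loss -/
def STQ : Prop := ∀ (G : Type) [AddCommGroup G] [Fintype G] [DecidableEq G] (m : ℕ)
  (q w c e L : ℝ) (σ τ ρ : G → ℝ) (B R R' : Finset G), IsP σ → IsP τ → IsP ρ → 0 < m → 0 ≤ q →
  q ≤ m → 0 ≤ w → H (cv σ τ) - H σ ≤ c →
  (∀ x t, ρ x ≠ 0 → τ t ≠ 0 → x - t ∈ R) → (∀ y t, y ∈ R → τ t ≠ 0 → y + t ∈ R') →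
  -(q * ∑ x, ρ x * pr σ B x) + Real.log (∑ x ∈ R', Real.exp (q * pr σ B x)) ≤ H ρ + e →
  ∃ τ' : G → ℝ, IsP τ' ∧ (∀ t, τ' t ≠ 0 → τ (-t) ≠ 0) ∧
    (L - H τ') + w * (H (cv ρ τ') - H ρ) ≤ (L - H τ) + m * c + w * (e + q ^ 2 / m)

/-- Gibbs' variational principle -/
def VAR : Prop := ∀ (G : Type) [AddCommGroup G] [Fintype G] [DecidableEq G] (q : ℝ)
  (B X : Finset G) (σ : G → ℝ), IsP σ → X.Nonempty →
  0 < ZZ q B X σ ∧ IsP (WL q B X σ) ∧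
  H (WL q B X σ) + q * ∑ x, WL q B X σ x * pr σ B x = Real.log (ZZ q B X σ) ∧
  (∀ ρ : G → ℝ, IsP ρ → (∀ x, ρ x ≠ 0 → x ∈ X) →
    H ρ + q * ∑ x, ρ x * pr σ B x ≤ Real.log (ZZ q B X σ)) ∧
  (∀ ρ : G → ℝ, ∑ x, ρ x * pr σ B x = ∑ s, σ s * pr ρ B s)

/-- the domains: `E i` contains the supports of the laws of the `i`-th variable -/
structure Dom {G : Type} [AddCommGroup G] [Fintype G] [DecidableEq G] (A : Finset G)
    (E : ℕ → Finset G) (lam : ℝ) (n : ℕ) : Prop where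
  base : A ⊆ E 0
  refl : ∀ i, ∀ x ∈ E i, ∀ b ∈ A + A, b - x ∈ E (i + 1)
  add : ∀ i, ∀ x ∈ E i, ∀ a ∈ A, ∀ a' ∈ A, x + a - a' ∈ E (i + 1)
  card : ∀ i ≤ n + 1, ((E i).card : ℝ) ≤ Real.exp lam * A.card

/-- the laws of the variables -/
noncomputable def sg {G : Type} [AddCommGroup G] [Fintype G] [DecidableEq G] (A : Finset G)
    (E : ℕ → Finset G) (q : ℝ) : ℕ → G → ℝ
  | 0 => GO0L.un A
  | i + 1 => WL q (A + A) (E (i + 1)) (sg A E q i)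

/-- the normalising factors are large -/
def SEQ : Prop := ∀ (G : Type) [AddCommGroup G] [Fintype G] [DecidableEq G] (A : Finset G)
  (E : ℕ → Finset G) (lam q : ℝ) (n : ℕ), A.Nonempty → 0 ≤ q → Dom A E lam n → ∀ i,
  IsP (sg A E q i) ∧ (∀ x, sg A E q i x ≠ 0 → x ∈ E i) ∧
  (∀ x, pr (sg A E q i) (A + A) x ≠ 0 → x ∈ E (i + 1)) ∧
  0 < ZZ q (A + A) (E (i + 1)) (sg A E q i) ∧
  (i ≤ n → Real.log A.card + q - lam ≤ Real.log (ZZ q (A + A) (E (i + 1)) (sg A E q i)))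

/-- the losses are small -/
def LOS : Prop := ∀ (G : Type) [AddCommGroup G] [Fintype G] [DecidableEq G] (A : Finset G)
  (E : ℕ → Finset G) (lam q : ℝ) (n : ℕ), A.Nonempty → 0 ≤ lam → 8 * lam + 24 ≤ q →
  Dom A E lam n → ∀ i < n,
  (-(q * ∑ x, sg A E q (i + 1) x * pr (sg A E q i) (A + A) x) +
    Real.log (∑ x ∈ E (i + 2), Real.exp (q * pr (sg A E q i) (A + A) x)) ≤
      H (sg A E q (i + 1)) + 1 / 1024) ∧
  ∃ ρ : G → ℝ, IsP ρ ∧ (∀ x, ρ x ≠ 0 → x ∈ E (i + 1) ∧ 3 / 4 ≤ pr (sg A E q i) (A + A) x) ∧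
    -(q * ∑ x, ρ x * pr (sg A E q i) (A + A) x) +
      Real.log (∑ x ∈ E (i + 2), Real.exp (q * pr (sg A E q i) (A + A) x)) ≤ H ρ + 1 / 128

/-- the main step of the proof -/
def CORE : Prop := ∀ (G : Type) [AddCommGroup G] [Fintype G] [DecidableEq G] (A : Finset G)
  (E : ℕ → Finset G) (lam : ℝ) (q n : ℕ), A.Nonempty → 0 ≤ lam → 8 * lam + 24 ≤ q →
  Dom A E lam n → 1 ≤ n → 64 * q ≤ 2 ^ (n - 1) → 2 ^ (n - 1) ≤ 128 * q →
  ∃ σ τ : G → ℝ, IsP σ ∧ IsP τ ∧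
    (∀ u v, σ u ≠ 0 → σ v ≠ 0 → u - v ∈ (A + A) - (A + A)) ∧
    ((∀ t, τ t ≠ 0 → t ∈ A) ∨ (∀ t, τ t ≠ 0 → t ∈ -A)) ∧
    Real.log A.card - H τ ≤ 10 * n * (q : ℝ) ^ 2 ∧ H (cv σ τ) - H σ ≤ 1 / 16

/-- finite groups, dense sets -/
def FGD : Prop := ∃ C : ℝ, 0 < C ∧ ∀ (G : Type) [AddCommGroup G] [Fintype G] [DecidableEq G]
  (A : Finset G), A.Nonempty →
  ∃ Γ : Finset (AddChar G ℂ), (Γ.card : ℝ) ≤
      C * (1 + Real.log ((Fintype.card G : ℝ) / A.card)) ^ 2 *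
        (1 + Real.log (1 + Real.log ((Fintype.card G : ℝ) / A.card))) ∧
    ∀ y : G, (∀ χ ∈ Γ, ‖χ y - 1‖ * (4 * (Γ.card : ℝ)) ≤ 1) → y ∈ 2 • A - 2 • A

/-- finite groups, sets of small doubling -/
def FGK : Prop := ∃ C : ℝ, 0 < C ∧ ∀ (G : Type) [AddCommGroup G] [Fintype G] [DecidableEq G]
  (A : Finset G) (K : ℝ), A.Nonempty → 1 ≤ K → ((A - A).card : ℝ) ≤ K * A.card →
  ∃ Γ : Finset (AddChar G ℂ), (Γ.card : ℝ) ≤
      C * (Real.log ((Fintype.card G : ℝ) / A.card) +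
        (1 + Real.log K) ^ 2 * (1 + Real.log (1 + Real.log K)) ^ 3) ∧
    ∀ y : G, (∀ χ ∈ Γ, ‖χ y - 1‖ * (4 * (Γ.card : ℝ)) ≤ 1) → y ∈ 2 • A - 2 • A

end Pool.Agent.H98.BQ
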