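import Pool.Agent.H98.TO.Asm
import Pool.Agent.H98.TO.TA
import Pool.Agent.H98.TO.TC
import Pool.Agent.H98.TO.TD
import Pool.Agent.H98.TO.TE
import Pool.Agent.H98.BQ.Main

/-!
# Subtori in `3A - 3A`: assembly
-/

set_option autoImplicit false

namespace Pool.Agent.H98.BQ

open Finset
open scoped Pointwise
open Pool.Agent.H98.TO
open Pool.Agent.H98.TO.AsmL

theorem torus (ta : TA) (tc : TC) (td : TD) (te : TE) (h : FGD) :
    ∃ C : ℝ, 0 < C ∧ ∀ (d : ℕ) (A : Set (T d)), IsOpen A → 0 < MeasureTheory.volume A →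
      ∃ (m : ℕ) (φ : T m →+ T d), Continuous φ ∧ Function.Injective φ ∧
        (d : ℝ) - m ≤ C * ((1 + Real.log (1 / (MeasureTheory.volume A).toReal)) ^ 2 *
          (1 + Real.log (1 + Real.log (1 / (MeasureTheory.volume A).toReal)))) ∧
        Set.range φ ⊆ {x | ∃ a b : Fin 3 → T d, (∀ i, a i ∈ A) ∧ (∀ i, b i ∈ A) ∧
          x = (∑ i, a i) - ∑ i, b i} := by
  obtain ⟨C, hC, h⟩ := fqd h
  refine ⟨2 * C, by positivity, ?_⟩
  intro d A hA hpos
  have hprob1 : MeasureTheory.IsProbabilityMeasure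
      (MeasureTheory.volume : MeasureTheory.Measure UnitAddCircle) := ⟨by simp⟩
  have hprob : MeasureTheory.IsProbabilityMeasure
      (MeasureTheory.volume : MeasureTheory.Measure (T d)) := by
    rw [MeasureTheory.volume_pi]; infer_instance
  have hle1 : MeasureTheory.volume A ≤ 1 := MeasureTheory.prob_le_one
  have hne : MeasureTheory.volume A ≠ ⊤ := ne_of_lt (lt_of_le_of_lt hle1 ENNReal.one_lt_top)
  set α : ℝ := (MeasureTheory.volume A).toReal with hα
  have hα0 : 0 < α := ENNReal.toReal_pos hpos.ne' hne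
  have hα1 : α ≤ 1 := by
    rw [hα]
    exact ENNReal.toReal_le_of_le_ofReal (by norm_num) (by simpa using hle1)
  set K : ℝ := max 2 (1 / α) with hK
  have hK2 : 2 ≤ K := le_max_left _ _
  have hlog : Real.log K ≤ 1 + Real.log (1 / α) := by
    have h1 : 0 ≤ Real.log (1 / α) := Real.log_nonneg (by rw [le_div_iff₀ hα0]; linarith)
    rcases max_choice 2 (1 / α) with h2 | h2
    · rw [hK, h2]
      have := Real.log_two_lt_d9
      linarith
    · rw [hK, h2]; linarith
  have hlog0 : 0 ≤ Real.log K := Real.log_nonneg (by linarith)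
  have hM00 : 0 ≤ Real.log (2 + Real.log K) := Real.log_nonneg (by linarith)
  obtain ⟨E, hE⟩ : ∃ E, E = Real.log K ^ 2 * Real.log (2 + Real.log K) := ⟨_, rfl⟩
  have hE0 : 0 ≤ E := by rw [hE]; positivity
  have hα10 : 0 ≤ Real.log (1 / α) := Real.log_nonneg (by rw [le_div_iff₀ hα0]; linarith)
  have hE1 : E ≤ 2 * ((1 + Real.log (1 / α)) ^ 2 * (1 + Real.log (1 + Real.log (1 / α)))) := by
    have a1 : Real.log (2 + Real.log K) ≤ Real.log (3 * (1 + Real.log (1 / α))) :=
      Real.log_le_log (by linarith) (by linarith)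
    have a2 : Real.log (3 * (1 + Real.log (1 / α))) =
        Real.log 3 + Real.log (1 + Real.log (1 / α)) :=
      Real.log_mul (by norm_num) (by linarith)
    have a3 : Real.log 3 ≤ 2 := by
      have := Real.log_le_log (show (0 : ℝ) < 3 by norm_num) (show (3 : ℝ) ≤ 2 ^ 2 by norm_num)
      rw [Real.log_pow] at this
      push_cast at this
      linarith [Real.log_two_lt_d9]
    have a4 : 0 ≤ Real.log (1 + Real.log (1 / α)) := Real.log_nonneg (by linarith)
    have a5 : Real.log (2 + Real.log K) ≤ 2 * (1 + Real.log (1 + Real.log (1 / α))) := by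
      linarith
    rw [hE]
    calc Real.log K ^ 2 * Real.log (2 + Real.log K)
        ≤ (1 + Real.log (1 / α)) ^ 2 * (2 * (1 + Real.log (1 + Real.log (1 / α)))) :=
          mul_le_mul (pow_le_pow_left₀ hlog0 hlog 2) a5 hM00 (by positivity)
      _ = _ := by ring
  set D : ℕ := ⌊C * E⌋₊ with hD
  have hDr : (D : ℝ) ≤ C * E := Nat.floor_le (mul_nonneg hC.le hE0)
  -- the neighbourhood `A - A`
  have hAne : A.Nonempty := by
    by_contra hem
    rw [Set.not_nonempty_iff_eq_empty] at hem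
    rw [hem] at hpos
    simp at hpos
  obtain ⟨a0, ha0⟩ := hAne
  obtain ⟨M, hM⟩ := tc d (A - A) (hA.sub_right) ⟨a0, ha0, a0, ha0, sub_self a0⟩
  obtain ⟨Q, hQ⟩ := td d M D
  obtain ⟨q, hqQ, hqp⟩ := Nat.exists_infinite_primes Q
  have hqf : Fact q.Prime := ⟨hqp⟩
  obtain ⟨x, hx⟩ := ta d q A hA.measurableSet
  classical
  set Aq : Finset (Fin d → ZMod q) := Finset.univ.filter fun g => x + io d q g ∈ A with hAq
  have hcard : (({g : Fin d → ZMod q | x + io d q g ∈ A}.ncard : ℕ) : ℝ) = Aq.card := by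
    rw [Set.ncard_eq_toFinset_card']
    congr 2
    ext g
    simp [hAq]
  rw [hcard] at hx
  have hqpos : (0 : ℝ) < (q : ℝ) ^ d := by
    have : (0 : ℝ) < q := by exact_mod_cast hqp.pos
    positivity
  have hAqne : Aq.Nonempty := by
    rw [← Finset.card_pos]
    have : (0 : ℝ) < Aq.card := lt_of_lt_of_le (mul_pos hα0 hqpos) hx
    exact_mod_cast this
  obtain ⟨V, hV, hVA⟩ := h q d Aq K hAqne hK2 (by
    have h1 : 1 / α ≤ K := le_max_right _ _
    have h2 : (0 : ℝ) ≤ Aq.card := Nat.cast_nonneg _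
    calc (q : ℝ) ^ d = (1 / α) * (α * (q : ℝ) ^ d) := by field_simp
      _ ≤ (1 / α) * Aq.card := mul_le_mul_of_nonneg_left hx (by positivity)
      _ ≤ K * Aq.card := mul_le_mul_of_nonneg_right h1 h2)
  rw [← hE] at hV
  have hVD : d ≤ Module.finrank (ZMod q) V + D := by
    have h1 : (d : ℝ) - Module.finrank (ZMod q) V ≤ C * E := by linarith
    by_contra hcon
    push Not at hcon
    have h2 : Module.finrank (ZMod q) V ≤ d := by omega
    have h3 : ((d - Module.finrank (ZMod q) V : ℕ) : ℝ) ≤ C * E := by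
      rw [Nat.cast_sub h2]; exact h1
    have h4 := Nat.le_floor h3
    omega
  -- the integer vectors
  set L : Set (Fin d → ℤ) := {k | (∀ i, |k i| ≤ M) ∧ ∀ v ∈ V, pq k v = 0} with hL
  obtain ⟨m, φ, hφ1, hφ2, hmD, hφ3⟩ := te d D L (by
    intro r k hk hkL
    exact hQ q hqQ V hVD r k hk (fun j i => (hkL j).1 i) (fun j v hv => (hkL j).2 v hv))
  refine ⟨m, φ, hφ1, hφ2, ?_, ?_⟩
  · have h1 : (d : ℝ) ≤ m + D := by exact_mod_cast hmD
    have h3 := mul_le_mul_of_nonneg_left hE1 hC.le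
    linarith
  · rintro y ⟨t, rfl⟩
    have hfin : ((V.toAddSubgroup.map (ioh d q) : AddSubgroup (T d)) : Set (T d)).Finite := by
      rw [AddSubgroup.coe_map]
      exact (Set.toFinite _).image _
    obtain ⟨hh, hhV, hU⟩ := hM (V.toAddSubgroup.map (ioh d q)) hfin (φ t) (by
      intro k hk hkV
      apply hφ3 k
      refine ⟨hk, ?_⟩
      intro v hv
      have h1 := hkV (io d q v) (AddSubgroup.mem_map.2 ⟨v, hv, rfl⟩)
      rw [pt_io, ZMod.toAddCircle_eq_zero] at h1
      exact h1)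
    obtain ⟨v, hv, rfl⟩ := AddSubgroup.mem_map.1 hhV
    obtain ⟨a1, ha1, b1, hb1, hab⟩ := hU
    obtain ⟨p, hp, r, hr, hpr⟩ := Finset.mem_sub.1 (hVA v hv)
    obtain ⟨P, hP, hPs⟩ := mem_nsmul Aq 2 p hp
    obtain ⟨R, hR, hRs⟩ := mem_nsmul Aq 2 r hr
    have hPA : ∀ i, x + io d q (P i) ∈ A := fun i => (Finset.mem_filter.1 (hP i)).2
    have hRA : ∀ i, x + io d q (R i) ∈ A := fun i => (Finset.mem_filter.1 (hR i)).2
    refine ⟨Fin.snoc (n := 2) (fun i => x + io d q (P i)) b1,
      Fin.snoc (n := 2) (fun i => x + io d q (R i)) a1, ?_, ?_, ?_⟩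
    · intro i
      refine Fin.lastCases ?_ (fun j => ?_) i
      · rw [Fin.snoc_last]; exact hb1
      · rw [Fin.snoc_castSucc]; exact hPA j
    · intro i
      refine Fin.lastCases ?_ (fun j => ?_) i
      · rw [Fin.snoc_last]; exact ha1
      · rw [Fin.snoc_castSucc]; exact hRA j
    · have s1 : ∑ i, (Fin.snoc (n := 2) (fun i => x + io d q (P i)) b1 : Fin 3 → T d) i =
          ∑ i, (x + io d q (P i)) + b1 := by
        rw [Fin.sum_univ_castSucc]
        simp only [Fin.snoc_castSucc, Fin.snoc_last]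
      have s2 : ∑ i, (Fin.snoc (n := 2) (fun i => x + io d q (R i)) a1 : Fin 3 → T d) i =
          ∑ i, (x + io d q (R i)) + a1 := by
        rw [Fin.sum_univ_castSucc]
        simp only [Fin.snoc_castSucc, Fin.snoc_last]
      rw [s1, s2, Finset.sum_add_distrib, Finset.sum_add_distrib]
      have h1 : (∑ i, io d q (P i)) - ∑ i, io d q (R i) = ioh d q v := by
        have e1 : ∀ g, io d q g = ioh d q g := fun g => rfl
        simp only [e1]
        rw [← map_sum, ← map_sum, ← map_sub, hPs, hRs, hpr]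
      have h2 : φ t = ioh d q v - (a1 - b1) := by
        have h3 : a1 - b1 = ioh d q v - φ t := hab
        rw [h3]; abel
      rw [h2, ← h1]
      abel

end Pool.Agent.H98.BQ
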